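import Pool.Agent.X184.PW.G

set_option autoImplicit false

namespace Pool.Agent.X184.PW

open Finset Filter Topology Nat

open Classical in
/-- the rough numbers in `(t/2, t]` which are not in `A` -/
noncomputable def Rs (A : Finset ℕ) (P t : ℕ) : Finset ℕ :=
  (Ioc (t / 2) t).filter fun r => r.Coprime (P !) ∧ r ∉ A

lemma mem_Rs {A : Finset ℕ} {P t r : ℕ} :
    r ∈ Rs A P t ↔ (t / 2 < r ∧ r ≤ t) ∧ r.Coprime (P !) ∧ r ∉ A := by
  simp only [Rs, mem_filter, mem_Ioc]

/-- a nearly optimal set contains nearly all the rough numbers of the upper half -/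
lemma card_Rs {a : ℝ} (ha : 0 ≤ a) {A : Finset ℕ} (hA0 : ∀ x ∈ A, 1 ≤ x) (hA : Prim A) {P : ℕ}
    (hP : 1 ≤ P) (t : ℕ) :
    (#(Rs A P t) : ℝ) * (t : ℝ) ^ (-a) ≤
      G a (Icc 1 t) - S a (A.filter (· ≤ t)) + T a (t / P) := by
  classical
  set A1 : Finset ℕ := A.filter fun x => x ≤ t ∧ t < x * P with hA1
  have hprim : Prim (A1 ∪ Rs A P t) := by
    intro x hx y hy hxy
    rw [mem_union] at hx hy
    obtain ⟨k, hk⟩ := hxy
    rcases hx with hx | hx
    · rw [hA1, mem_filter] at hx
      rcases hy with hy | hy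
      · rw [hA1, mem_filter] at hy
        exact hA x hx.1 y hy.1 ⟨k, hk⟩
      · rw [mem_Rs] at hy
        exfalso
        have hk1 : k ≠ 1 := by
          rintro rfl
          apply hy.2.2
          rw [hk, mul_one]
          exact hx.1
        have hkP : k < P := by
          by_contra hcon
          push Not at hcon
          have : x * P ≤ x * k := Nat.mul_le_mul_left x hcon
          omega
        obtain ⟨p, hp, hpk⟩ := Nat.exists_prime_and_dvd hk1
        have hk0 : 0 < k := by
          rcases Nat.eq_zero_or_pos k with h0 | h0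
          · subst h0; omega
          · exact h0
        have h1 := Nat.le_of_dvd hk0 hpk
        have h2 := coprime_fact.1 hy.2.1 p hp (hpk.trans ⟨x, by rw [hk, mul_comm]⟩)
        omega
    · rw [mem_Rs] at hx
      have hyt : y ≤ t ∧ 1 ≤ y := by
        rcases hy with hy | hy
        · rw [hA1, mem_filter] at hy
          exact ⟨hy.2.1, hA0 y hy.1⟩
        · rw [mem_Rs] at hy
          omega
      have hk2 : k < 2 := by
        by_contra h
        push Not at h
        have : x * 2 ≤ x * k := Nat.mul_le_mul_left x h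
        omega
      interval_cases k
      · omega
      · omega
  have hsub : A1 ∪ Rs A P t ⊆ Icc 1 t := by
    intro x hx
    rw [mem_union] at hx
    rw [mem_Icc]
    rcases hx with hx | hx
    · rw [hA1, mem_filter] at hx
      exact ⟨hA0 x hx.1, hx.2.1⟩
    · rw [mem_Rs] at hx
      omega
  have h1 := le_G (a := a) hsub hprim
  have hdisj : Disjoint A1 (Rs A P t) := by
    rw [disjoint_left]
    intro x hx hx'
    rw [hA1, mem_filter] at hx
    rw [mem_Rs] at hx'
    exact hx'.2.2 hx.1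
  have h2 : S a (A1 ∪ Rs A P t) = S a A1 + S a (Rs A P t) := by
    unfold S
    exact sum_union hdisj
  have h3 : (#(Rs A P t) : ℝ) * (t : ℝ) ^ (-a) ≤ S a (Rs A P t) := by
    unfold S
    rw [← nsmul_eq_mul, ← Finset.sum_const]
    apply Finset.sum_le_sum
    intro x hx
    rw [mem_Rs] at hx
    have hx0 : (0 : ℝ) < x := by exact_mod_cast (by omega : 0 < x)
    exact Real.rpow_le_rpow_of_nonpos hx0 (by exact_mod_cast hx.1.2) (by linarith)
  have h4 : S a (A.filter (· ≤ t)) ≤ S a A1 + T a (t / P) := by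
    have h5 : A.filter (· ≤ t) ⊆ A1 ∪ Icc 1 (t / P) := by
      intro x hx
      rw [mem_filter] at hx
      rw [mem_union, hA1, mem_filter, mem_Icc]
      by_cases h : t < x * P
      · exact Or.inl ⟨hx.1, hx.2, h⟩
      · right
        refine ⟨hA0 x hx.1, ?_⟩
        rw [Nat.le_div_iff_mul_le hP]
        omega
    refine (S_mono a h5).trans ?_
    unfold T S
    rw [← Finset.sum_union_inter]
    have : 0 ≤ ∑ x ∈ A1 ∩ Icc 1 (t / P), (x : ℝ) ^ (-a) :=
      Finset.sum_nonneg fun x _ => by positivity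
    linarith
  linarith

/-- `P`-rough but not `Q`-rough numbers in `(t/2, t]` -/
lemma card_main {A : Finset ℕ} (hA : Prim A) (P Q t : ℕ) :
    #((Ioc (t / 2) t).filter fun m => m.Coprime (P !) ∧ ¬ m.Coprime (Q !)) ≤
      #(Rs A P t) + ∑ q ∈ (Ioc P Q).filter Nat.Prime, #(Rs A P (t / q)) := by
  classical
  have hsub : ((Ioc (t / 2) t).filter fun m => m.Coprime (P !) ∧ ¬ m.Coprime (Q !)) ⊆
      Rs A P t ∪ ((Ioc P Q).filter Nat.Prime).biUnion fun q => (Rs A P (t / q)).image fun k => q * k := by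
    intro m hm
    rw [mem_filter, mem_Ioc] at hm
    obtain ⟨⟨h1, h2⟩, h3, h4⟩ := hm
    rw [mem_union]
    by_cases hmA : m ∈ A
    · right
      rw [coprime_fact] at h4
      push Not at h4
      obtain ⟨q, hq, ⟨k, hk⟩, hqQ⟩ := h4
      have hPq := coprime_fact.1 h3 q hq ⟨k, hk⟩
      rw [mem_biUnion]
      refine ⟨q, by rw [mem_filter, mem_Ioc]; exact ⟨⟨hPq, hqQ⟩, hq⟩, ?_⟩
      rw [mem_image]
      refine ⟨k, ?_, hk.symm⟩
      rw [mem_Rs]
      have hq0 : 0 < q := hq.pos
      refine ⟨⟨?_, ?_⟩, ?_, ?_⟩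
      · have h5 : t < 2 * m := by omega
        have h6 : t / q < 2 * k := by
          rw [Nat.div_lt_iff_lt_mul hq0]
          calc t < 2 * m := h5
            _ = 2 * k * q := by rw [hk]; ring
        omega
      · rw [Nat.le_div_iff_mul_le hq0]
        calc k * q = m := by rw [hk]; ring
          _ ≤ t := h2
      · rw [coprime_fact]
        intro p hp hpk
        exact coprime_fact.1 h3 p hp (hpk.trans ⟨q, by rw [hk, mul_comm]⟩)
      · intro hkA
        have h5 := hA k hkA m hmA ⟨q, by rw [hk, mul_comm]⟩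
        have hk0 : 0 < k := by
          rcases Nat.eq_zero_or_pos k with h0 | h0
          · subst h0; omega
          · exact h0
        have h6 : 1 < q := hq.one_lt
        have h7 : k * 1 < k * q := Nat.mul_lt_mul_of_pos_left h6 hk0
        rw [mul_comm q k] at hk
        omega
    · left
      rw [mem_Rs]
      exact ⟨⟨h1, h2⟩, h3, hmA⟩
  refine (card_le_card hsub).trans ((card_union_le _ _).trans ?_)
  apply Nat.add_le_add_left
  refine card_biUnion_le.trans ?_
  apply Finset.sum_le_sum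
  intro q _
  exact card_image_le

/-- lower bound for the left hand side of `card_main` -/
lemma card_lower {P Q : ℕ} (h : P ≤ Q) (t : ℕ) :
    (c P - c Q) * t / 2 - 4 * (Q ! : ℕ) ≤
      (#((Ioc (t / 2) t).filter fun m => m.Coprime (P !) ∧ ¬ m.Coprime (Q !)) : ℝ) := by
  classical
  have hcount : ∀ P : ℕ, #(Ro P t) = #(Ro P (t / 2)) + #((Ioc (t / 2) t).filter fun m => m.Coprime (P !)) := by
    intro P
    rw [← card_union_of_disjoint]
    · congr 1
      ext m
      simp only [mem_union, mem_Ro, mem_filter, mem_Ioc]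
      constructor
      · rintro ⟨⟨h1, h2⟩, h3⟩
        by_cases hm : m ≤ t / 2
        · exact Or.inl ⟨⟨h1, hm⟩, h3⟩
        · exact Or.inr ⟨⟨by omega, h2⟩, h3⟩
      · rintro (⟨⟨h1, h2⟩, h3⟩ | ⟨⟨h1, h2⟩, h3⟩)
        · exact ⟨⟨h1, by omega⟩, h3⟩
        · exact ⟨⟨by omega, h2⟩, h3⟩
    · rw [disjoint_left]
      intro m h1 h2
      rw [mem_Ro] at h1
      rw [mem_filter, mem_Ioc] at h2
      omega
  have hsplit : #((Ioc (t / 2) t).filter fun m => m.Coprime (P !)) =
      #((Ioc (t / 2) t).filter fun m => m.Coprime (P !) ∧ ¬ m.Coprime (Q !)) +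
      #((Ioc (t / 2) t).filter fun m => m.Coprime (Q !)) := by
    rw [← card_union_of_disjoint]
    · congr 1
      ext m
      simp only [mem_union, mem_filter, mem_Ioc]
      constructor
      · rintro ⟨h1, h3⟩
        by_cases hm : m.Coprime (Q !)
        · exact Or.inr ⟨h1, hm⟩
        · exact Or.inl ⟨h1, h3, hm⟩
      · rintro (⟨h1, h3, _⟩ | ⟨h1, h3⟩)
        · exact ⟨h1, h3⟩
        · exact ⟨h1, Nat.Coprime.coprime_dvd_right (Nat.factorial_dvd_factorial h) h3⟩
    · rw [disjoint_left]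
      intro m h1 h2
      rw [mem_filter] at h1 h2
      exact h1.2.2 h2.2
  have a1 := Ro_card P t
  have a2 := Ro_card P (t / 2)
  have a3 := Ro_card Q t
  have a4 := Ro_card Q (t / 2)
  have e1 : (#(Ro P t) : ℝ) = #(Ro P (t / 2)) + #((Ioc (t / 2) t).filter fun m => m.Coprime (P !)) := by
    exact_mod_cast hcount P
  have e2 : (#(Ro Q t) : ℝ) = #(Ro Q (t / 2)) + #((Ioc (t / 2) t).filter fun m => m.Coprime (Q !)) := by
    exact_mod_cast hcount Q
  have e3 : (#((Ioc (t / 2) t).filter fun m => m.Coprime (P !)) : ℝ) =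
      #((Ioc (t / 2) t).filter fun m => m.Coprime (P !) ∧ ¬ m.Coprime (Q !)) +
      #((Ioc (t / 2) t).filter fun m => m.Coprime (Q !)) := by
    exact_mod_cast hsplit
  rw [abs_le] at a1 a2 a3 a4
  have hc : c Q ≤ c P := by
    rw [c_split h]
    apply mul_le_of_le_one_right (c_pos P).le
    apply Finset.prod_le_one
    · intro p hp
      have := factor_pos (mem_filter.1 hp).2
      linarith
    · intro p hp
      have : (0 : ℝ) ≤ 1 / (p : ℝ) := by positivity
      linarith
  have hfac : ((P ! : ℕ) : ℝ) ≤ ((Q ! : ℕ) : ℝ) := by exact_mod_cast Nat.factorial_le h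
  have h2 : ((t / 2 : ℕ) : ℝ) ≤ t / 2 := Nat.cast_div_le
  have h3 : (c P - c Q) * ((t / 2 : ℕ) : ℝ) ≤ (c P - c Q) * (t / 2) :=
    mul_le_mul_of_nonneg_left h2 (by linarith)
  have h4 : (c P - c Q) * t / 2 = (c P - c Q) * t - (c P - c Q) * (t / 2) := by ring
  rw [h4]
  nlinarith [a1.1, a2.2, a3.2, a4.1]

end Pool.Agent.X184.PW
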