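import Pool.Agent.X184.PW.E
import Pool.Agent.X184.PW.H

set_option autoImplicit false

namespace Pool.Agent.X184.PW

open Finset Filter Topology Nat

/-- the relative defect of `A` at `t` -/
noncomputable def ep (a : ℝ) (A : Finset ℕ) (t : ℕ) : ℝ :=
  (G a (Icc 1 t) - S a (A.filter (· ≤ t))) / T a t

lemma filter_le_G {a : ℝ} {A : Finset ℕ} (hA0 : ∀ x ∈ A, 1 ≤ x) (hA : Prim A) (t : ℕ) :
    S a (A.filter (· ≤ t)) ≤ G a (Icc 1 t) := by
  apply le_G _ (hA.mono (filter_subset _ _))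
  intro x hx
  rw [mem_filter] at hx
  rw [mem_Icc]
  exact ⟨hA0 x hx.1, hx.2⟩

lemma ep_nonneg {a : ℝ} {A : Finset ℕ} (hA0 : ∀ x ∈ A, 1 ≤ x) (hA : Prim A) (t : ℕ) :
    0 ≤ ep a A t :=
  div_nonneg (sub_nonneg.2 (filter_le_G hA0 hA t)) (T_nonneg _ _)

lemma ep_zero (a : ℝ) (A : Finset ℕ) : ep a A 0 = 0 := by
  unfold ep
  rw [T_zero, div_zero]

lemma ep_mul (a : ℝ) (A : Finset ℕ) {t : ℕ} (ht : 1 ≤ t) :
    ep a A t * T a t = G a (Icc 1 t) - S a (A.filter (· ≤ t)) :=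
  div_mul_cancel₀ _ (T_pos a ht).ne'

lemma Rs_bound {a : ℝ} (ha : 0 ≤ a) (ha1 : a < 1) {A : Finset ℕ} (hA0 : ∀ x ∈ A, 1 ≤ x)
    (hA : Prim A) {P : ℕ} (hP : 1 ≤ P) (t : ℕ) :
    (#(Rs A P t) : ℝ) ≤ t / (1 - a) * (ep a A t + ((P : ℝ) ^ (1 - a))⁻¹) := by
  have hκ : 0 < 1 - a := by linarith
  rcases Nat.eq_zero_or_pos t with h0 | h0
  · subst h0
    have : Rs A P 0 = ∅ := by
      ext m; simp only [mem_Rs, notMem_empty, iff_false]; omega
    rw [this]
    simp
  · have ht0 : (0 : ℝ) < t := by exact_mod_cast h0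
    have hP0 : (0 : ℝ) < P := by exact_mod_cast hP
    have h1 := card_Rs ha hA0 hA hP t
    rw [← ep_mul a A h0] at h1
    have h2 := T_le ha ha1 t
    have h3 := T_le ha ha1 (t / P)
    have h4 : ((t / P : ℕ) : ℝ) ^ (1 - a) ≤ ((t : ℝ) / P) ^ (1 - a) :=
      Real.rpow_le_rpow (Nat.cast_nonneg _) Nat.cast_div_le hκ.le
    rw [Real.div_rpow ht0.le hP0.le] at h4
    have h5 : ep a A t * T a t ≤ ep a A t * ((t : ℝ) ^ (1 - a) / (1 - a)) := by
      apply mul_le_mul_of_nonneg_left _ (ep_nonneg hA0 hA t)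
      rw [le_div_iff₀ hκ]
      linarith
    have h6 : T a (t / P) ≤ (t : ℝ) ^ (1 - a) / (1 - a) * ((P : ℝ) ^ (1 - a))⁻¹ := by
      have h7 : T a (t / P) ≤ ((t : ℝ) ^ (1 - a) / (P : ℝ) ^ (1 - a)) / (1 - a) := by
        rw [le_div_iff₀ hκ]
        linarith
      refine h7.trans (le_of_eq ?_)
      field_simp
    have h8 : (#(Rs A P t) : ℝ) * (t : ℝ) ^ (-a) ≤
        (t : ℝ) ^ (1 - a) / (1 - a) * (ep a A t + ((P : ℝ) ^ (1 - a))⁻¹) := by
      calc _ ≤ ep a A t * T a t + T a (t / P) := h1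
        _ ≤ ep a A t * ((t : ℝ) ^ (1 - a) / (1 - a)) +
            (t : ℝ) ^ (1 - a) / (1 - a) * ((P : ℝ) ^ (1 - a))⁻¹ := add_le_add h5 h6
        _ = _ := by ring
    have hp : (0 : ℝ) < (t : ℝ) ^ (-a) := by positivity
    have e : (t : ℝ) ^ (1 - a) = t * (t : ℝ) ^ (-a) := by
      rw [show (1 - a) = 1 + -a by ring, Real.rpow_add ht0, Real.rpow_one]
    rw [e] at h8
    rw [← mul_le_mul_iff_left₀ hp]
    refine h8.trans (le_of_eq ?_)
    ring

/-- the defects cannot be small at `t` and all the `t / q` -/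
lemma key_defect {a : ℝ} (ha : 0 ≤ a) (ha1 : a < 1) :
    ∃ θ : ℝ, 0 < θ ∧ ∃ t₀ : ℕ, ∃ 𝒬 : Finset ℕ, (∀ q ∈ 𝒬, 1 ≤ q) ∧
      ∀ A : Finset ℕ, (∀ x ∈ A, 1 ≤ x) → Prim A → ∀ t : ℕ, t₀ ≤ t →
        θ < ep a A t + ∑ q ∈ 𝒬, ep a A (t / q) := by
  have hκ : 0 < 1 - a := by linarith
  obtain ⟨P, hP1, hP⟩ := exists_c_large hκ (24 / (1 - a))
  have hcP := c_pos P
  -- choose Q
  obtain ⟨Q, hPQ, hQ1, hQ2⟩ : ∃ Q : ℕ, P ≤ Q ∧ c Q ≤ c P / 2 ∧ c P / 4 ≤ c Q := by
    classical
    obtain ⟨Q', hQ'⟩ := exists_c_lt (c P / 2) (by positivity)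
    have hex : ∃ j : ℕ, c (P + j) ≤ c P / 2 := by
      refine ⟨Q', ?_⟩
      have h1 : c (P + Q') ≤ c Q' := by
        rw [c_split (show Q' ≤ P + Q' by omega)]
        apply mul_le_of_le_one_right (c_pos _).le
        apply Finset.prod_le_one
        · intro p hp
          have := factor_pos (mem_filter.1 hp).2
          linarith
        · intro p _
          have : (0 : ℝ) ≤ 1 / (p : ℝ) := by positivity
          linarith
      linarith
    have h1 := Nat.find_spec hex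
    have h2 : Nat.find hex ≠ 0 := by
      intro h0
      rw [h0, add_zero] at h1
      linarith
    obtain ⟨j, hj⟩ := Nat.exists_eq_succ_of_ne_zero h2
    have h3 : ¬ c (P + j) ≤ c P / 2 := Nat.find_min hex (by omega)
    push Not at h3
    refine ⟨P + Nat.find hex, by omega, h1, ?_⟩
    rw [hj]
    have h4 := c_succ_ge (P + j)
    have e : P + j.succ = P + j + 1 := rfl
    rw [e]
    linarith
  have hcQ := c_pos Q
  have hPi : (0 : ℝ) < ((P : ℝ) ^ (1 - a))⁻¹ := by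
    have : (0 : ℝ) < P := by exact_mod_cast hP1
    positivity
  set pk := ((P : ℝ) ^ (1 - a))⁻¹ with hpk
  -- sum of reciprocals
  have hs : ∑ q ∈ (Ioc P Q).filter Nat.Prime, (1 : ℝ) / q ≤ 2 := by
    refine (sum_le_log hPQ).trans ?_
    rw [Real.log_le_iff_le_exp (by positivity)]
    have h1 : c P / c Q ≤ 4 := by
      rw [div_le_iff₀ hcQ]; linarith
    have h2 : (4 : ℝ) ≤ Real.exp 2 := by
      have h3 := Real.add_one_le_exp (1 : ℝ)
      have h4 : Real.exp 2 = Real.exp 1 * Real.exp 1 := by rw [← Real.exp_add]; norm_num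
      rw [h4]
      nlinarith
    linarith
  refine ⟨(1 - a) * c P / 16, by positivity, ⌊64 * ((Q ! : ℕ) : ℝ) / c P⌋₊ + 1,
    (Ioc P Q).filter Nat.Prime, fun q hq => (mem_filter.1 hq).2.one_le, fun A hA0 hA t ht => ?_⟩
  by_contra hcon
  push Not at hcon
  have htR : 64 * ((Q ! : ℕ) : ℝ) / c P < t := by
    refine (Nat.lt_floor_add_one _).trans_le ?_
    exact_mod_cast ht
  have hfQ : (0 : ℝ) < ((Q ! : ℕ) : ℝ) := fact_pos' Q
  have ht0 : (0 : ℝ) < t := lt_of_le_of_lt (by positivity) htR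
  have h1 := card_main hA P Q t
  have h2 := card_lower hPQ t
  have h3 : (#((Ioc (t / 2) t).filter fun m => m.Coprime (P !) ∧ ¬ m.Coprime (Q !)) : ℝ) ≤
      #(Rs A P t) + ∑ q ∈ (Ioc P Q).filter Nat.Prime, (#(Rs A P (t / q)) : ℝ) := by
    exact_mod_cast h1
  have h4 := Rs_bound ha ha1 hA0 hA hP1 t
  have h5 : ∑ q ∈ (Ioc P Q).filter Nat.Prime, (#(Rs A P (t / q)) : ℝ) ≤
      ∑ q ∈ (Ioc P Q).filter Nat.Prime, (t / (1 - a) * (ep a A (t / q) + pk * (1 / q))) := by
    apply Finset.sum_le_sum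
    intro q hq
    have hqp : q.Prime := (mem_filter.1 hq).2
    have hq0 : (0 : ℝ) < q := by exact_mod_cast hqp.pos
    have hq1 : (1 : ℝ) ≤ q := by exact_mod_cast hqp.one_le
    refine (Rs_bound ha ha1 hA0 hA hP1 (t / q)).trans ?_
    have h6 : ((t / q : ℕ) : ℝ) ≤ t / q := Nat.cast_div_le
    have h7 := ep_nonneg (a := a) hA0 hA (t / q)
    calc ((t / q : ℕ) : ℝ) / (1 - a) * (ep a A (t / q) + pk)
        ≤ (t / q) / (1 - a) * (ep a A (t / q) + pk) := by
          apply mul_le_mul_of_nonneg_right _ (by positivity)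
          exact div_le_div_of_nonneg_right h6 hκ.le
      _ = t / (1 - a) * (ep a A (t / q) * (1 / q) + pk * (1 / q)) := by ring
      _ ≤ t / (1 - a) * (ep a A (t / q) + pk * (1 / q)) := by
          apply mul_le_mul_of_nonneg_left _ (by positivity)
          apply add_le_add_left
          apply mul_le_of_le_one_right h7
          rw [div_le_one hq0]
          exact hq1
  rw [← Finset.mul_sum, Finset.sum_add_distrib, ← Finset.mul_sum] at h5
  have h8 : (c P - c Q) * t / 2 - 4 * ((Q ! : ℕ) : ℝ) ≤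
      t / (1 - a) * ((1 - a) * c P / 16 + 3 * pk) := by
    have h9 : pk * ∑ q ∈ (Ioc P Q).filter Nat.Prime, (1 : ℝ) / q ≤ pk * 2 :=
      mul_le_mul_of_nonneg_left hs hPi.le
    calc _ ≤ (#(Rs A P t) : ℝ) + ∑ q ∈ (Ioc P Q).filter Nat.Prime, (#(Rs A P (t / q)) : ℝ) :=
          h2.trans h3
      _ ≤ t / (1 - a) * (ep a A t + pk) + t / (1 - a) *
          (∑ q ∈ (Ioc P Q).filter Nat.Prime, ep a A (t / q) +
            pk * ∑ q ∈ (Ioc P Q).filter Nat.Prime, (1 : ℝ) / q) := add_le_add h4 h5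
      _ = t / (1 - a) * ((ep a A t + ∑ q ∈ (Ioc P Q).filter Nat.Prime, ep a A (t / q)) + (pk +
            pk * ∑ q ∈ (Ioc P Q).filter Nat.Prime, (1 : ℝ) / q)) := by ring
      _ ≤ _ := by
          apply mul_le_mul_of_nonneg_left _ (by positivity)
          linarith
  have h9 : 3 * pk < (1 - a) * c P / 8 := by
    have : 24 / (1 - a) * pk < c P := hP
    rw [div_mul_eq_mul_div, div_lt_iff₀ hκ] at this
    linarith
  have h10 : t / (1 - a) * ((1 - a) * c P / 16 + 3 * pk) ≤ t * (3 * c P / 16) := by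
    calc t / (1 - a) * ((1 - a) * c P / 16 + 3 * pk)
        ≤ t / (1 - a) * ((1 - a) * c P / 16 + (1 - a) * c P / 8) := by
          apply mul_le_mul_of_nonneg_left _ (by positivity)
          linarith
      _ = t * (3 * c P / 16) := by
          field_simp
          ring
  rw [div_lt_iff₀ hcP] at htR
  nlinarith

lemma sum_div_le (h : ℕ → ℝ) (q : ℕ) (hq : 1 ≤ q) (n : ℕ) :
    ∑ t ∈ range (q * n), h (t / q) = q * ∑ u ∈ range n, h u := by
  induction n with
  | zero => simp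
  | succ n ih =>
    rw [mul_add, mul_one, Finset.sum_range_add, ih, Finset.sum_range_succ, mul_add]
    congr 1
    have h1 : ∀ i ∈ range q, h ((q * n + i) / q) = h n := by
      intro i hi
      rw [mem_range] at hi
      rw [Nat.mul_add_div hq, Nat.div_eq_of_lt hi, add_zero]
    rw [Finset.sum_congr rfl h1]
    simp

lemma T_one_tendsto {b : ℝ} (hb : b ≤ 1) : Tendsto (T b) atTop atTop := by
  have h0 : Tendsto (fun n : ℕ => ∑ i ∈ range n, 1 / ((i : ℝ) + 1)) atTop atTop :=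
    Real.tendsto_sum_range_one_div_nat_succ_atTop
  refine tendsto_atTop_mono (fun n => ?_) h0
  have h1 : T b n = ∑ i ∈ range n, ((i + 1 : ℕ) : ℝ) ^ (-b) := by
    unfold T S
    rw [Finset.range_eq_Ico, Finset.sum_Ico_add' (fun x : ℕ => (x : ℝ) ^ (-b)) 0 n 1, zero_add]
    apply Finset.sum_congr _ fun _ _ => rfl
    ext m
    simp only [mem_Icc, mem_Ico]
    omega
  rw [h1]
  apply Finset.sum_le_sum
  intro i _
  have h2 : (1 : ℝ) ≤ ((i + 1 : ℕ) : ℝ) := by push_cast; linarith [i.cast_nonneg (α := ℝ)]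
  calc 1 / ((i : ℝ) + 1) = ((i + 1 : ℕ) : ℝ) ^ (-1 : ℝ) := by
        rw [Real.rpow_neg_one, one_div]; push_cast; rfl
    _ ≤ _ := Real.rpow_le_rpow_of_exponent_le h2 (by linarith)

/-- **The main theorem.** -/
theorem main {a b : ℝ} (ha : 0 ≤ a) (hab : a < b) (hb : b ≤ 1) :
    ∃ δ : ℝ, 0 < δ ∧ ∀ᶠ n in atTop, F b n + δ ≤ F a n := by
  have ha1 : a < 1 := by linarith
  set τ : ℝ := b - a with hτ
  have hτ0 : 0 < τ := by linarith
  obtain ⟨θ, hθ, t₀, 𝒬, h𝒬, hkey⟩ := key_defect ha ha1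
  obtain ⟨L, hL⟩ := exists_limit ha ha1
  set c₁ : ℝ := τ * (2 : ℝ) ^ (-τ - 1) with hc₁
  have hc₁0 : 0 < c₁ := by positivity
  set D : ℝ := 1 + ∑ q ∈ 𝒬, (q : ℝ) with hD
  have hD0 : 0 < D := by positivity
  set ξ : ℝ := θ * c₁ / (4 * D) with hξ
  have hξ0 : 0 < ξ := by positivity
  refine ⟨ξ, hξ0, ?_⟩
  by_contra hcon
  rw [not_eventually] at hcon
  -- the limit
  obtain ⟨N₀, hN₀⟩ := (Metric.tendsto_atTop.1 hL) (ξ / 2) (by positivity)
  -- T b n large
  have hTinf := (T_one_tendsto hb).eventually_gt_atTop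
    ((2 / θ) * (θ * (1 + T b t₀) + D / c₁ * T b N₀))
  obtain ⟨n, hn1, hn2, hn3⟩ := (hcon.and_eventually (hTinf.and (eventually_ge_atTop (N₀ + 1)))).exists
  push Not at hn1
  have hn : 1 ≤ n := by omega
  obtain ⟨A, hA1, hA2, hA3⟩ := exists_opt b (Icc 1 n)
  have hA0 : ∀ x ∈ A, 1 ≤ x := fun x hx => (mem_Icc.1 (hA1 hx)).1
  -- Abel summation
  have hab1 := abel a τ hA1
  have hab2 := abel a τ (Finset.Subset.refl (Icc 1 n))
  have eb : a + τ = b := by rw [hτ]; ring
  rw [eb] at hab1 hab2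
  have e1 : ∀ t ∈ Ico 1 n, (Icc 1 n).filter (· ≤ t) = Icc 1 t := by
    intro t ht
    rw [mem_Ico] at ht
    ext m
    simp only [mem_filter, mem_Icc]
    omega
  rw [Finset.sum_congr rfl (fun t ht => by rw [e1 t ht])] at hab2
  change T b n = ∑ t ∈ Ico 1 n, v τ t * T a t + (n : ℝ) ^ (-τ) * T a n at hab2
  have hv : ∀ t ∈ Ico 1 n, 0 ≤ v τ t := fun t ht => v_nonneg hτ0.le (mem_Ico.1 ht).1
  -- the sum of the defects
  have hdef : ∑ t ∈ Ico 1 n, v τ t * (ep a A t * T a t) ≤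
      ∑ t ∈ Ico 1 n, v τ t * (F a t - F a n) * T a t + ξ * T b n := by
    have h1 : ∑ t ∈ Ico 1 n, v τ t * (ep a A t * T a t) =
        ∑ t ∈ Ico 1 n, v τ t * (F a t * T a t) - ∑ t ∈ Ico 1 n, v τ t * S a (A.filter (· ≤ t)) := by
      rw [← Finset.sum_sub_distrib]
      apply Finset.sum_congr rfl
      intro t ht
      rw [ep_mul a A (mem_Ico.1 ht).1, F_mul a (mem_Ico.1 ht).1]
      ring
    have h2 : S a A ≤ F a n * T a n := by
      rw [F_mul a hn]
      exact le_G hA1 hA2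
    have h3 : F b n * T b n = S b A := by rw [F_mul b hn, hA3]
    have h4 : (0 : ℝ) ≤ (n : ℝ) ^ (-τ) := by positivity
    have h5 : (F a n - ξ) * T b n ≤ F b n * T b n :=
      mul_le_mul_of_nonneg_right (by linarith) (T_nonneg _ _)
    have h6 : ∑ t ∈ Ico 1 n, v τ t * (F a t - F a n) * T a t =
        ∑ t ∈ Ico 1 n, v τ t * (F a t * T a t) - F a n * ∑ t ∈ Ico 1 n, v τ t * T a t := by
      rw [Finset.mul_sum, ← Finset.sum_sub_distrib]
      apply Finset.sum_congr rfl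
      intro t _
      ring
    have h7 := mul_le_mul_of_nonneg_left h2 h4
    have h8 : F a n * T b n = F a n * ∑ t ∈ Ico 1 n, v τ t * T a t +
        (n : ℝ) ^ (-τ) * (F a n * T a n) := by
      rw [hab2]; ring
    rw [h1, h6]
    linarith
  -- the first sum is small
  have hsmall : ∑ t ∈ Ico 1 n, v τ t * (F a t - F a n) * T a t ≤ ξ * T b n + T b N₀ := by
    have hFn := hN₀ n (by omega)
    rw [Real.dist_eq, abs_lt] at hFn
    have h1 : ∀ t ∈ Ico 1 n, v τ t * (F a t - F a n) * T a t ≤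
        ξ * (v τ t * T a t) + (if t < N₀ then v τ t * T a t else 0) := by
      intro t ht
      have hv0 := hv t ht
      have hT0 := T_nonneg a t
      have hvT : 0 ≤ v τ t * T a t := mul_nonneg hv0 hT0
      split_ifs with hlt
      · have h2 : F a t - F a n ≤ 1 := by
          have := F_le_one a t
          have := F_nonneg a n
          linarith
        have h3 : v τ t * (F a t - F a n) * T a t = (F a t - F a n) * (v τ t * T a t) := by ring
        rw [h3]
        nlinarith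
      · have hFt := hN₀ t (by omega)
        rw [Real.dist_eq, abs_lt] at hFt
        have h3 : v τ t * (F a t - F a n) * T a t = (F a t - F a n) * (v τ t * T a t) := by ring
        rw [h3, add_zero]
        exact mul_le_mul_of_nonneg_right (by linarith) hvT
    refine (Finset.sum_le_sum h1).trans ?_
    rw [Finset.sum_add_distrib, ← Finset.mul_sum, ← Finset.sum_filter]
    apply _root_.add_le_add
    · apply mul_le_mul_of_nonneg_left _ hξ0.le
      rw [hab2]
      have : 0 ≤ (n : ℝ) ^ (-τ) * T a n := mul_nonneg (by positivity) (T_nonneg _ _)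
      linarith
    · rcases Nat.eq_zero_or_pos N₀ with h0 | h0
      · subst h0
        simp [T_zero]
      · have hab3 := abel a τ (Finset.Subset.refl (Icc 1 N₀))
        rw [eb] at hab3
        have e2 : ∀ t ∈ Ico 1 N₀, (Icc 1 N₀).filter (· ≤ t) = Icc 1 t := by
          intro t ht
          rw [mem_Ico] at ht
          ext m
          simp only [mem_filter, mem_Icc]
          omega
        rw [Finset.sum_congr rfl (fun t ht => by rw [e2 t ht])] at hab3
        change T b N₀ = ∑ t ∈ Ico 1 N₀, v τ t * T a t + (N₀ : ℝ) ^ (-τ) * T a N₀ at hab3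
        have e3 : (Ico 1 n).filter (fun t => t < N₀) = Ico 1 N₀ := by
          ext m
          simp only [mem_filter, mem_Ico]
          omega
        rw [e3, hab3]
        have : 0 ≤ (N₀ : ℝ) ^ (-τ) * T a N₀ := mul_nonneg (by positivity) (T_nonneg _ _)
        linarith
  -- W
  set W : ℝ := ∑ t ∈ Ico 1 n, (t : ℝ) ^ (-b) * ep a A t with hW
  have hWle : c₁ * W ≤ 2 * ξ * T b n + T b N₀ := by
    have h1 : c₁ * W ≤ ∑ t ∈ Ico 1 n, v τ t * (ep a A t * T a t) := by
      rw [hW, Finset.mul_sum]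
      apply Finset.sum_le_sum
      intro t ht
      have ht1 := (mem_Ico.1 ht).1
      have ht0 : (0 : ℝ) < t := by exact_mod_cast ht1
      have h2 := le_v hτ0 ht1
      have h3 := rpow_le_T ha ht1
      have h4 := ep_nonneg (a := a) hA0 hA2 t
      have h5 : c₁ * (t : ℝ) ^ (-b) ≤ v τ t * T a t := by
        have h6 : (2 : ℝ) ^ (-τ - 1) * (t : ℝ) ^ (-τ - 1) ≤ ((t + 1 : ℕ) : ℝ) ^ (-τ - 1) := by
          rw [← Real.mul_rpow (by norm_num) ht0.le]
          apply Real.rpow_le_rpow_of_nonpos (by positivity) _ (by linarith)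
          have : (1 : ℝ) ≤ t := by exact_mod_cast ht1
          push_cast
          linarith
        have h7 : (t : ℝ) ^ (-b) = (t : ℝ) ^ (-τ - 1) * (t : ℝ) ^ (1 - a) := by
          rw [← Real.rpow_add ht0]
          congr 1
          rw [hτ]; ring
        calc c₁ * (t : ℝ) ^ (-b) = (τ * ((2 : ℝ) ^ (-τ - 1) * (t : ℝ) ^ (-τ - 1))) * (t : ℝ) ^ (1 - a) := by
              rw [hc₁, h7]; ring
          _ ≤ (τ * ((t + 1 : ℕ) : ℝ) ^ (-τ - 1)) * (t : ℝ) ^ (1 - a) := by
              apply mul_le_mul_of_nonneg_right _ (by positivity)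
              exact mul_le_mul_of_nonneg_left h6 hτ0.le
          _ ≤ v τ t * T a t := mul_le_mul h2 h3 (by positivity) (v_nonneg hτ0.le ht1)
      calc c₁ * ((t : ℝ) ^ (-b) * ep a A t) = (c₁ * (t : ℝ) ^ (-b)) * ep a A t := by ring
        _ ≤ (v τ t * T a t) * ep a A t := mul_le_mul_of_nonneg_right h5 h4
        _ = _ := by ring
    linarith
  -- the sums over t / q
  set hh : ℕ → ℝ := fun u => (u : ℝ) ^ (-b) * ep a A u with hhh
  have hh0 : ∀ u, 0 ≤ hh u := fun u => mul_nonneg (by positivity) (ep_nonneg hA0 hA2 u)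
  have hhz : hh 0 = 0 := by simp [hhh, ep_zero]
  have hb0 : 0 < b := by linarith
  have hWr : ∑ u ∈ range n, hh u = W := by
    rw [hW, Finset.range_eq_Ico, Finset.sum_eq_sum_Ico_succ_bot (by omega : 0 < n), hhz, zero_add]
  have hq : ∀ q ∈ 𝒬, ∑ t ∈ Ico 1 n, (t : ℝ) ^ (-b) * ep a A (t / q) ≤ q * W := by
    intro q hq
    have hq1 := h𝒬 q hq
    calc ∑ t ∈ Ico 1 n, (t : ℝ) ^ (-b) * ep a A (t / q) ≤ ∑ t ∈ Ico 1 n, hh (t / q) := by
          apply Finset.sum_le_sum
          intro t ht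
          rcases Nat.eq_zero_or_pos (t / q) with h0 | h0
          · rw [h0, ep_zero, hhz, mul_zero]
          · apply mul_le_mul_of_nonneg_right _ (ep_nonneg hA0 hA2 _)
            apply Real.rpow_le_rpow_of_nonpos (by exact_mod_cast h0) _ (by linarith)
            exact_mod_cast Nat.div_le_self t q
      _ ≤ ∑ t ∈ range (q * n), hh (t / q) := by
          apply Finset.sum_le_sum_of_subset_of_nonneg _ (fun _ _ _ => hh0 _)
          intro t ht
          rw [mem_Ico] at ht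
          rw [mem_range]
          calc t < n := ht.2
            _ ≤ q * n := Nat.le_mul_of_pos_left n hq1
      _ = q * W := by rw [sum_div_le hh q hq1 n, hWr]
  have hup : ∑ t ∈ Ico 1 n, (t : ℝ) ^ (-b) * (ep a A t + ∑ q ∈ 𝒬, ep a A (t / q)) ≤ D * W := by
    have h1 : ∑ t ∈ Ico 1 n, (t : ℝ) ^ (-b) * (ep a A t + ∑ q ∈ 𝒬, ep a A (t / q)) =
        W + ∑ q ∈ 𝒬, ∑ t ∈ Ico 1 n, (t : ℝ) ^ (-b) * ep a A (t / q) := by
      rw [Finset.sum_comm, hW, ← Finset.sum_add_distrib]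
      apply Finset.sum_congr rfl
      intro t _
      rw [mul_add, Finset.mul_sum]
    rw [h1, hD, add_mul, one_mul, Finset.sum_mul]
    exact add_le_add_right (Finset.sum_le_sum hq) _
  -- lower bound
  have hlow : θ * (T b n - 1 - T b t₀) ≤
      ∑ t ∈ Ico 1 n, (t : ℝ) ^ (-b) * (ep a A t + ∑ q ∈ 𝒬, ep a A (t / q)) := by
    have h1 : ∀ t ∈ Ico 1 n, θ * (if t₀ < t then (t : ℝ) ^ (-b) else 0) ≤
        (t : ℝ) ^ (-b) * (ep a A t + ∑ q ∈ 𝒬, ep a A (t / q)) := by
      intro t _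
      have hnn : 0 ≤ ep a A t + ∑ q ∈ 𝒬, ep a A (t / q) :=
        add_nonneg (ep_nonneg hA0 hA2 t) (Finset.sum_nonneg fun q _ => ep_nonneg hA0 hA2 _)
      split_ifs with h
      · rw [mul_comm]
        exact mul_le_mul_of_nonneg_left (hkey A hA0 hA2 t h.le).le (by positivity)
      · rw [mul_zero]
        exact mul_nonneg (by positivity) hnn
    refine le_trans ?_ (Finset.sum_le_sum h1)
    rw [← Finset.mul_sum]
    apply mul_le_mul_of_nonneg_left _ hθ.le
    have h2 : T b n ≤ ∑ t ∈ Ico 1 n, (if t₀ < t then (t : ℝ) ^ (-b) else 0) + T b t₀ + 1 := by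
      obtain ⟨m, rfl⟩ : ∃ m, n = m + 1 := ⟨n - 1, by omega⟩
      rw [T_succ]
      have h3 : ((m + 1 : ℕ) : ℝ) ^ (-b) ≤ 1 :=
        Real.rpow_le_one_of_one_le_of_nonpos (by push_cast; linarith [m.cast_nonneg (α := ℝ)]) (by linarith)
      have h4 : T b m ≤ ∑ t ∈ Ico 1 (m + 1), (if t₀ < t then (t : ℝ) ^ (-b) else 0) + T b t₀ := by
        rw [← Finset.sum_filter]
        have h5 : Icc 1 m ⊆ (Ico 1 (m + 1)).filter (fun t => t₀ < t) ∪ Icc 1 t₀ := by
          intro x hx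
          rw [mem_Icc] at hx
          rw [mem_union, mem_filter, mem_Ico, mem_Icc]
          omega
        refine (S_mono b h5).trans ?_
        unfold T S
        rw [← Finset.sum_union_inter]
        have : 0 ≤ ∑ x ∈ (Ico 1 (m + 1)).filter (fun t => t₀ < t) ∩ Icc 1 t₀, (x : ℝ) ^ (-b) :=
          Finset.sum_nonneg fun x _ => by positivity
        linarith
      linarith
    linarith
  -- conclusion
  have h1 : θ * (T b n - 1 - T b t₀) ≤ D * W := hlow.trans hup
  have h2 : D * W ≤ D / c₁ * (2 * ξ * T b n + T b N₀) := by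
    have h3 : W ≤ (2 * ξ * T b n + T b N₀) / c₁ := by
      rw [le_div_iff₀ hc₁0]; linarith
    calc D * W ≤ D * ((2 * ξ * T b n + T b N₀) / c₁) := mul_le_mul_of_nonneg_left h3 hD0.le
      _ = _ := by ring
  have h3 : D / c₁ * (2 * ξ * T b n) = θ / 2 * T b n := by
    rw [hξ]
    field_simp
    ring
  have h4 : θ / 2 * T b n ≤ θ * (1 + T b t₀) + D / c₁ * T b N₀ := by
    have h5 : D / c₁ * (2 * ξ * T b n + T b N₀) = θ / 2 * T b n + D / c₁ * T b N₀ := by
      rw [mul_add, h3]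
    rw [h5] at h2
    linarith
  have h5 : T b n ≤ (2 / θ) * (θ * (1 + T b t₀) + D / c₁ * T b N₀) := by
    calc T b n = (2 / θ) * (θ / 2 * T b n) := by field_simp
      _ ≤ _ := mul_le_mul_of_nonneg_left h4 (by positivity)
  linarith

end Pool.Agent.X184.PW
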