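import Mathlib

set_option autoImplicit false

namespace Pool.Agent.X184.PW

open Finset

/-- the weight of `A` for `x ↦ x ^ (-a)` -/
noncomputable def S (a : ℝ) (A : Finset ℕ) : ℝ := ∑ x ∈ A, (x : ℝ) ^ (-a)

/-- primitive finite sets -/
def Prim (A : Finset ℕ) : Prop := ∀ x ∈ A, ∀ y ∈ A, x ∣ y → x = y

open Classical in
/-- the maximal weight of a primitive subset -/
noncomputable def G (a : ℝ) (Y : Finset ℕ) : ℝ :=
  (Y.powerset.filter Prim).sup' ⟨∅, by simp [Prim]⟩ (S a)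

/-- the weight of `[1, n]` -/
noncomputable def T (a : ℝ) (n : ℕ) : ℝ := S a (Icc 1 n)

lemma exists_opt (a : ℝ) (Y : Finset ℕ) : ∃ A : Finset ℕ, A ⊆ Y ∧ Prim A ∧ S a A = G a Y := by
  classical
  obtain ⟨A, hA, h⟩ := Finset.exists_mem_eq_sup' (s := Y.powerset.filter Prim) ⟨∅, by simp [Prim]⟩
    (S a)
  rw [mem_filter, mem_powerset] at hA
  exact ⟨A, hA.1, hA.2, h.symm⟩

lemma le_G {a : ℝ} {A Y : Finset ℕ} (h : A ⊆ Y) (hA : Prim A) : S a A ≤ G a Y := by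
  classical
  exact Finset.le_sup' (f := S a) (by simp [h, hA] : A ∈ Y.powerset.filter Prim)

lemma S_nonneg (a : ℝ) (A : Finset ℕ) : 0 ≤ S a A :=
  Finset.sum_nonneg fun x _ => by positivity

lemma S_mono (a : ℝ) {A B : Finset ℕ} (h : A ⊆ B) : S a A ≤ S a B :=
  Finset.sum_le_sum_of_subset_of_nonneg h fun x _ _ => by positivity

lemma Prim.mono {A B : Finset ℕ} (h : A ⊆ B) (hB : Prim B) : Prim A :=
  fun x hx y hy => hB x (h hx) y (h hy)

lemma G_nonneg (a : ℝ) (Y : Finset ℕ) : 0 ≤ G a Y := by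
  have := le_G (a := a) (A := ∅) (Y := Y) (by simp) (by simp [Prim])
  simpa [S] using this

lemma G_mono (a : ℝ) {Y Z : Finset ℕ} (h : Y ⊆ Z) : G a Y ≤ G a Z := by
  obtain ⟨A, h1, h2, h3⟩ := exists_opt a Y
  rw [← h3]
  exact le_G (h1.trans h) h2

lemma G_le_S (a : ℝ) (Y : Finset ℕ) : G a Y ≤ S a Y := by
  obtain ⟨A, h1, h2, h3⟩ := exists_opt a Y
  rw [← h3]
  exact S_mono a h1

lemma T_succ (a : ℝ) (n : ℕ) : T a (n + 1) = T a n + ((n + 1 : ℕ) : ℝ) ^ (-a) := by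
  unfold T S
  rw [Finset.sum_Icc_succ_top (by omega)]

lemma T_zero (a : ℝ) : T a 0 = 0 := by simp [T, S]

lemma T_mono (a : ℝ) {m n : ℕ} (h : m ≤ n) : T a m ≤ T a n :=
  S_mono a (Icc_subset_Icc le_rfl h)

lemma T_nonneg (a : ℝ) (n : ℕ) : 0 ≤ T a n := S_nonneg _ _

lemma one_le_T (a : ℝ) {n : ℕ} (hn : 1 ≤ n) : 1 ≤ T a n := by
  have h := T_mono a hn
  have h1 : T a 1 = 1 := by simp [T, S]
  linarith

lemma T_pos (a : ℝ) {n : ℕ} (hn : 1 ≤ n) : 0 < T a n := lt_of_lt_of_le one_pos (one_le_T a hn)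

/-- `κ T(n) ≤ n ^ κ` -/
lemma T_le {a : ℝ} (ha : 0 ≤ a) (ha1 : a < 1) (n : ℕ) : (1 - a) * T a n ≤ (n : ℝ) ^ (1 - a) := by
  induction n with
  | zero => simp [T_zero, Real.zero_rpow (by linarith : (1 - a) ≠ 0)]
  | succ n ih =>
    rw [T_succ, mul_add]
    have hn : (0 : ℝ) < ((n + 1 : ℕ) : ℝ) := by positivity
    have hle : (1 : ℝ) ≤ ((n + 1 : ℕ) : ℝ) := by push_cast; linarith [n.cast_nonneg (α := ℝ)]
    have h1 : (n : ℝ) ^ (1 - a) ≤ ((n + 1 : ℕ) : ℝ) ^ (1 - a) - (1 - a) * ((n + 1 : ℕ) : ℝ) ^ (-a) := by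
      have e1 : (n : ℝ) = ((n + 1 : ℕ) : ℝ) * (1 + -(1 / ((n + 1 : ℕ) : ℝ))) := by
        field_simp
        push_cast
        ring
      have h3 : 1 / ((n + 1 : ℕ) : ℝ) ≤ 1 := by
        rw [div_le_one hn]
        exact hle
      have h2 : (1 + -(1 / ((n + 1 : ℕ) : ℝ))) ^ (1 - a) ≤ 1 + (1 - a) * -(1 / ((n + 1 : ℕ) : ℝ)) :=
        rpow_one_add_le_one_add_mul_self (by linarith) (by linarith) (by linarith)
      calc (n : ℝ) ^ (1 - a) = ((n + 1 : ℕ) : ℝ) ^ (1 - a) * (1 + -(1 / ((n + 1 : ℕ) : ℝ))) ^ (1 - a) := by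
            rw [← Real.mul_rpow hn.le (by linarith), ← e1]
        _ ≤ ((n + 1 : ℕ) : ℝ) ^ (1 - a) * (1 + (1 - a) * -(1 / ((n + 1 : ℕ) : ℝ))) :=
            mul_le_mul_of_nonneg_left h2 (by positivity)
        _ = ((n + 1 : ℕ) : ℝ) ^ (1 - a) - (1 - a) * ((n + 1 : ℕ) : ℝ) ^ (-a) := by
            rw [show ((n + 1 : ℕ) : ℝ) ^ (1 - a) = ((n + 1 : ℕ) : ℝ) * ((n + 1 : ℕ) : ℝ) ^ (-a) by
              rw [show (1 - a) = 1 + -a by ring, Real.rpow_add hn, Real.rpow_one]]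
            field_simp
            ring
    linarith

/-- `(n + 1) ^ κ - 1 ≤ κ T(n)` -/
lemma le_T {a : ℝ} (ha : 0 ≤ a) (ha1 : a < 1) (n : ℕ) :
    ((n + 1 : ℕ) : ℝ) ^ (1 - a) - 1 ≤ (1 - a) * T a n := by
  induction n with
  | zero => simp [T_zero]
  | succ n ih =>
    rw [T_succ, mul_add]
    set N : ℝ := ((n + 1 : ℕ) : ℝ) with hN
    have hn : (0 : ℝ) < N := by positivity
    have e2 : ((n + 1 + 1 : ℕ) : ℝ) = N * (1 + 1 / N) := by
      rw [mul_add, mul_one, mul_one_div_cancel hn.ne', hN]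
      push_cast
      ring
    have h2 : (1 + 1 / N) ^ (1 - a) ≤ 1 + (1 - a) * (1 / N) :=
      rpow_one_add_le_one_add_mul_self
        (by have h4 : 0 < 1 / N := by positivity
            linarith) (by linarith) (by linarith)
    have h3 : ((n + 1 + 1 : ℕ) : ℝ) ^ (1 - a) ≤ N ^ (1 - a) + (1 - a) * N ^ (-a) := by
      rw [e2, Real.mul_rpow hn.le (by positivity)]
      calc N ^ (1 - a) * (1 + 1 / N) ^ (1 - a) ≤ N ^ (1 - a) * (1 + (1 - a) * (1 / N)) :=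
            mul_le_mul_of_nonneg_left h2 (by positivity)
        _ = N ^ (1 - a) + (1 - a) * N ^ (-a) := by
            rw [show N ^ (1 - a) = N * N ^ (-a) by
              rw [show (1 - a) = 1 + -a by ring, Real.rpow_add hn, Real.rpow_one]]
            field_simp
    linarith

/-- `n ^ κ ≤ T(n)` -/
lemma rpow_le_T {a : ℝ} (ha : 0 ≤ a) {n : ℕ} (hn : 1 ≤ n) : (n : ℝ) ^ (1 - a) ≤ T a n := by
  have hn0 : (0 : ℝ) < n := by exact_mod_cast hn
  have h : ∑ x ∈ Icc 1 n, (n : ℝ) ^ (-a) ≤ T a n := by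
    apply Finset.sum_le_sum
    intro x hx
    rw [mem_Icc] at hx
    have hx0 : (0 : ℝ) < x := by exact_mod_cast hx.1
    exact Real.rpow_le_rpow_of_nonpos hx0 (by exact_mod_cast hx.2) (by linarith)
  rw [Finset.sum_const, Nat.card_Icc, nsmul_eq_mul] at h
  rw [show (1 - a) = 1 + -a by ring, Real.rpow_add hn0, Real.rpow_one]
  simpa using h

/-- the weights of the Abel summation -/
noncomputable def v (τ : ℝ) (t : ℕ) : ℝ := (t : ℝ) ^ (-τ) - ((t + 1 : ℕ) : ℝ) ^ (-τ)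

lemma v_nonneg {τ : ℝ} (hτ : 0 ≤ τ) {t : ℕ} (ht : 1 ≤ t) : 0 ≤ v τ t := by
  have ht0 : (0 : ℝ) < t := by exact_mod_cast ht
  have := Real.rpow_le_rpow_of_nonpos ht0 (by push_cast; linarith : (t : ℝ) ≤ ((t + 1 : ℕ) : ℝ))
    (by linarith : -τ ≤ 0)
  unfold v
  linarith

lemma sum_v (τ : ℝ) {x n : ℕ} (h : x ≤ n) :
    ∑ t ∈ Ico x n, v τ t = (x : ℝ) ^ (-τ) - (n : ℝ) ^ (-τ) := by
  unfold v
  induction n, h using Nat.le_induction with
  | base => simp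
  | succ n hn ih =>
    rw [Finset.sum_Ico_succ_top hn, ih]
    ring

/-- Abel summation -/
lemma abel (a τ : ℝ) {n : ℕ} {A : Finset ℕ} (hA : A ⊆ Icc 1 n) :
    S (a + τ) A = ∑ t ∈ Ico 1 n, v τ t * S a (A.filter (· ≤ t)) + (n : ℝ) ^ (-τ) * S a A := by
  have h1 : ∀ x ∈ A, (x : ℝ) ^ (-(a + τ)) = (∑ t ∈ Ico 1 n, if x ≤ t then v τ t * (x : ℝ) ^ (-a) else 0)
      + (n : ℝ) ^ (-τ) * (x : ℝ) ^ (-a) := by
    intro x hx
    have hx' := hA hx
    rw [mem_Icc] at hx'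
    have hx0 : (0 : ℝ) < x := by exact_mod_cast hx'.1
    rw [← Finset.sum_filter, ← Finset.sum_mul]
    have e : (Ico 1 n).filter (fun t => x ≤ t) = Ico x n := by
      ext t
      simp only [mem_filter, mem_Ico]
      omega
    rw [e, sum_v τ hx'.2, show -(a + τ) = -τ + -a by ring, Real.rpow_add hx0]
    ring
  unfold S
  rw [Finset.sum_congr rfl h1, Finset.sum_add_distrib, Finset.sum_comm, Finset.mul_sum]
  congr 1
  apply Finset.sum_congr rfl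
  intro t _
  rw [Finset.mul_sum, Finset.sum_filter]

/-- lower bound for the weights -/
lemma le_v {τ : ℝ} (hτ : 0 < τ) {t : ℕ} (ht : 1 ≤ t) :
    τ * ((t + 1 : ℕ) : ℝ) ^ (-τ - 1) ≤ v τ t := by
  have ht0 : (0 : ℝ) < t := by exact_mod_cast ht
  set N : ℝ := ((t + 1 : ℕ) : ℝ) with hN
  have hN0 : (0 : ℝ) < N := by positivity
  have hN1 : (t : ℝ) = N - 1 := by rw [hN]; push_cast; ring
  -- (t/N)^(-τ) ≥ 1 + τ / N
  have h1 : 1 + τ * (1 / N) ≤ ((t : ℝ) / N) ^ (-τ) := by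
    have e1 : ((t : ℝ) / N) ^ (-τ) = (N / t) ^ τ := by
      rw [Real.rpow_neg (by positivity), ← Real.inv_rpow (by positivity), inv_div]
    rw [e1]
    have h2 : Real.exp (τ * (1 / N)) ≤ (N / t) ^ τ := by
      rw [Real.rpow_def_of_pos (by positivity), mul_comm (Real.log _)]
      apply Real.exp_le_exp.2
      apply mul_le_mul_of_nonneg_left _ hτ.le
      have h3 := Real.one_sub_inv_le_log_of_pos (show (0 : ℝ) < N / t by positivity)
      rw [inv_div] at h3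
      calc (1 : ℝ) / N = 1 - t / N := by rw [hN1]; field_simp; ring
        _ ≤ _ := h3
    have h4 := Real.add_one_le_exp (τ * (1 / N))
    linarith
  have h5 : (t : ℝ) ^ (-τ) = N ^ (-τ) * ((t : ℝ) / N) ^ (-τ) := by
    rw [← Real.mul_rpow hN0.le (by positivity), mul_div_cancel₀ _ hN0.ne']
  unfold v
  rw [h5, show N ^ (-τ - 1) = N ^ (-τ) * (1 / N) by
    rw [show (-τ - 1) = -τ + -1 by ring, Real.rpow_add hN0, Real.rpow_neg_one, one_div]]
  have h6 := mul_le_mul_of_nonneg_left h1 (by positivity : 0 ≤ N ^ (-τ))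
  linarith

end Pool.Agent.X184.PW
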