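import Pool.Agent.X184.PW.A

set_option autoImplicit false

namespace Pool.Agent.X184.PW

open Finset Filter Topology Nat

/-- all the prime factors are at most `P` -/
def Smooth (P s : ℕ) : Prop := ∀ p : ℕ, p.Prime → p ∣ s → p ≤ P

lemma coprime_fact {P r : ℕ} : r.Coprime (P !) ↔ ∀ p : ℕ, p.Prime → p ∣ r → P < p := by
  constructor
  · intro h p hp hpr
    by_contra hle
    push Not at hle
    have h1 : p ∣ P ! := (hp.dvd_factorial).2 hle
    exact hp.one_lt.ne' (Nat.dvd_one.1 (h ▸ Nat.dvd_gcd hpr h1))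
  · intro h
    apply Nat.coprime_of_dvd
    intro p hp hpr hpP
    exact absurd ((hp.dvd_factorial).1 hpP) (not_le.2 (h p hp hpr))

open Classical in
/-- the smooth numbers up to `y` -/
noncomputable def Sm (P y : ℕ) : Finset ℕ := (Icc 1 y).filter (Smooth P)

open Classical in
/-- the rough numbers up to `y` -/
noncomputable def Ro (P y : ℕ) : Finset ℕ := (Icc 1 y).filter fun r => r.Coprime (P !)

lemma mem_Sm {P y s : ℕ} : s ∈ Sm P y ↔ (1 ≤ s ∧ s ≤ y) ∧ Smooth P s := by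
  simp only [Sm, mem_filter, mem_Icc]

lemma mem_Ro {P y s : ℕ} : s ∈ Ro P y ↔ (1 ≤ s ∧ s ≤ y) ∧ s.Coprime (P !) := by
  simp only [Ro, mem_filter, mem_Icc]

lemma Smooth.coprime {P s r : ℕ} (hs : Smooth P s) (hr : r.Coprime (P !)) : s.Coprime r := by
  apply Nat.coprime_of_dvd
  intro p hp h1 h2
  exact absurd (hs p hp h1) (not_le.2 (coprime_fact.1 hr p hp h2))

lemma decomp (P : ℕ) : ∀ m : ℕ, 1 ≤ m → ∃ s r : ℕ, Smooth P s ∧ r.Coprime (P !) ∧ m = s * r := by
  intro m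
  induction m using Nat.strong_induction_on with
  | _ m ih =>
    intro hm
    by_cases h : m.Coprime (P !)
    · exact ⟨1, m, fun p hp h1 => absurd (Nat.dvd_one.1 h1) hp.one_lt.ne', h, by simp⟩
    · rw [coprime_fact] at h
      push Not at h
      obtain ⟨p, hp, ⟨k, rfl⟩, hpP⟩ := h
      have hk : 1 ≤ k := by
        rcases Nat.eq_zero_or_pos k with h0 | h0
        · subst h0; simp at hm
        · exact h0
      obtain ⟨s, r, hs, hr, he⟩ := ih k (by nlinarith [hp.two_le]) hk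
      refine ⟨p * s, r, ?_, hr, by rw [he]; ring⟩
      intro q hq hqs
      rcases (hq.dvd_mul).1 hqs with h1 | h1
      · rw [(Nat.prime_dvd_prime_iff_eq hq hp).1 h1]; exact hpP
      · exact hs q hq h1

lemma decomp_unique {P s r s' r' : ℕ} (hs : Smooth P s) (hr : r.Coprime (P !))
    (hs' : Smooth P s') (hr' : r'.Coprime (P !)) (h : s * r = s' * r') (h0 : 0 < s) :
    s = s' ∧ r = r' := by
  have h1 : s ∣ s' := (hs.coprime hr').dvd_of_dvd_mul_right (h ▸ dvd_mul_right s r)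
  have h2 : s' ∣ s := (hs'.coprime hr).dvd_of_dvd_mul_right (h ▸ dvd_mul_right s' r')
  have h3 := Nat.dvd_antisymm h1 h2
  refine ⟨h3, ?_⟩
  rw [← h3] at h
  exact Nat.eq_of_mul_eq_mul_left h0 h

lemma sum_decomp (P n : ℕ) (f : ℕ → ℝ) :
    ∑ m ∈ Icc 1 n, f m = ∑ r ∈ Ro P n, ∑ s ∈ Sm P (n / r), f (s * r) := by
  rw [Finset.sum_sigma']
  symm
  apply Finset.sum_nbij (fun x : (_ : ℕ) × ℕ => x.2 * x.1)
  · rintro ⟨r, s⟩ h
    simp only [mem_sigma, mem_Ro, mem_Sm, mem_Icc] at h ⊢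
    refine ⟨Nat.mul_pos h.2.1.1 h.1.1.1, ?_⟩
    exact (Nat.le_div_iff_mul_le h.1.1.1).1 h.2.1.2
  · rintro ⟨r, s⟩ h ⟨r', s'⟩ h' he
    simp only [coe_sigma, Set.mem_sigma_iff, mem_coe, mem_Ro, mem_Sm] at h h' he
    obtain ⟨e1, e2⟩ := decomp_unique h.2.2 h.1.2 h'.2.2 h'.1.2 he h.2.1.1
    simp [e1, e2]
  · intro m hm
    rw [mem_coe, mem_Icc] at hm
    obtain ⟨s, r, hs, hr, he⟩ := decomp P m hm.1
    have hs0 : 0 < s := by
      rcases Nat.eq_zero_or_pos s with h0 | h0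
      · subst h0; omega
      · exact h0
    have hr0 : 0 < r := by
      rcases Nat.eq_zero_or_pos r with h0 | h0
      · subst h0; omega
      · exact h0
    refine ⟨⟨r, s⟩, ?_, he.symm⟩
    simp only [coe_sigma, Set.mem_sigma_iff, mem_coe, mem_Ro, mem_Sm]
    refine ⟨⟨⟨hr0, ?_⟩, hr⟩, ⟨hs0, ?_⟩, hs⟩
    · calc r ≤ s * r := Nat.le_mul_of_pos_left _ hs0
        _ ≤ n := he ▸ hm.2
    · rw [Nat.le_div_iff_mul_le hr0]
      exact he ▸ hm.2
  · intro x _
    rfl

/-- the bound given by the rough parts -/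
noncomputable def U (a : ℝ) (P n : ℕ) : ℝ := ∑ r ∈ Ro P n, (r : ℝ) ^ (-a) * G a (Sm P (n / r))

lemma cast_mul_rpow (a : ℝ) (s r : ℕ) : ((s * r : ℕ) : ℝ) ^ (-a) = (r : ℝ) ^ (-a) * (s : ℝ) ^ (-a) := by
  push_cast
  rw [Real.mul_rpow (by positivity) (by positivity), mul_comm]

lemma G_le_U (a : ℝ) (P n : ℕ) : G a (Icc 1 n) ≤ U a P n := by
  classical
  obtain ⟨A, h1, h2, h3⟩ := exists_opt a (Icc 1 n)
  rw [← h3]
  have e1 : S a A = ∑ m ∈ Icc 1 n, if m ∈ A then (m : ℝ) ^ (-a) else 0 := by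
    unfold S
    rw [← Finset.sum_filter, Finset.filter_mem_eq_inter, Finset.inter_eq_right.2 h1]
  rw [e1, sum_decomp P n]
  unfold U
  apply Finset.sum_le_sum
  intro r hr
  rw [mem_Ro] at hr
  have e2 : ∑ s ∈ Sm P (n / r), (if s * r ∈ A then ((s * r : ℕ) : ℝ) ^ (-a) else 0) =
      (r : ℝ) ^ (-a) * S a ((Sm P (n / r)).filter fun s => s * r ∈ A) := by
    unfold S
    rw [Finset.mul_sum, Finset.sum_filter]
    apply Finset.sum_congr rfl
    intro s _
    split_ifs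
    · exact cast_mul_rpow a s r
    · rfl
  rw [e2]
  apply mul_le_mul_of_nonneg_left _ (by positivity)
  apply le_G (filter_subset _ _)
  intro x hx y hy hxy
  rw [mem_filter] at hx hy
  have := h2 _ hx.2 _ hy.2 (Nat.mul_dvd_mul_right hxy r)
  exact Nat.eq_of_mul_eq_mul_right hr.1.1 this

lemma U_le_G (a : ℝ) {P : ℕ} (hP : 1 ≤ P) (n : ℕ) : U a P n ≤ G a (Icc 1 n) + T a (n / P) := by
  classical
  choose B hB1 hB2 hB3 using fun y : ℕ => exists_opt a (Sm P y)
  set A : Finset ℕ := (Icc 1 n).filter fun m => ∃ r ∈ Ro P n, ∃ s ∈ B (n / r), m = s * r ∧ n < m * P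
    with hA
  have hprim : Prim A := by
    intro m hm m' hm' hdvd
    rw [hA, mem_filter, mem_Icc] at hm hm'
    obtain ⟨⟨hm1, hm2⟩, r, hr, s, hs, e, hn⟩ := hm
    obtain ⟨⟨hm1', hm2'⟩, r', hr', s', hs', e', hn'⟩ := hm'
    obtain ⟨k, hk⟩ := hdvd
    have hkP : k < P := by
      by_contra hcon
      push Not at hcon
      have : m * P ≤ m * k := Nat.mul_le_mul_left m hcon
      omega
    have hk0 : 0 < k := by
      rcases Nat.eq_zero_or_pos k with h0 | h0
      · subst h0; omega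
      · exact h0
    have hS := mem_Sm.1 (hB1 _ hs)
    have hS' := mem_Sm.1 (hB1 _ hs')
    have hR := mem_Ro.1 hr
    have hR' := mem_Ro.1 hr'
    have hsk : Smooth P (s * k) := by
      intro p hp hpd
      rcases (hp.dvd_mul).1 hpd with h | h
      · exact hS.2 p hp h
      · exact (Nat.le_of_dvd hk0 h).trans hkP.le
    have heq : (s * k) * r = s' * r' := by
      rw [← e', hk, e]; ring
    obtain ⟨e1, e2⟩ := decomp_unique hsk hR.2 hS'.2 hR'.2 heq (Nat.mul_pos hS.1.1 hk0)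
    subst e2
    have h3 := hB2 _ s hs s' hs' (e1 ▸ dvd_mul_right s k)
    rw [e, e', h3]
  have hle := le_G (a := a) (filter_subset _ _ : A ⊆ Icc 1 n) hprim
  have e1 : S a A = ∑ m ∈ Icc 1 n, if m ∈ A then (m : ℝ) ^ (-a) else 0 := by
    unfold S
    rw [← Finset.sum_filter, Finset.filter_mem_eq_inter,
      Finset.inter_eq_right.2 (filter_subset _ _ : A ⊆ Icc 1 n)]
  have e2 : T a (n / P) = ∑ m ∈ Icc 1 n, if m * P ≤ n then (m : ℝ) ^ (-a) else 0 := by
    unfold T S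
    rw [← Finset.sum_filter]
    apply Finset.sum_congr _ fun _ _ => rfl
    ext m
    simp only [mem_Icc, mem_filter]
    rw [Nat.le_div_iff_mul_le hP]
    constructor
    · rintro ⟨h1, h2⟩
      exact ⟨⟨h1, le_trans (Nat.le_mul_of_pos_right m hP) h2⟩, h2⟩
    · rintro ⟨⟨h1, _⟩, h2⟩
      exact ⟨h1, h2⟩
  have key : U a P n ≤ S a A + T a (n / P) := by
    rw [e1, e2, ← Finset.sum_add_distrib, sum_decomp P n]
    unfold U
    apply Finset.sum_le_sum
    intro r hr
    have e3 : (r : ℝ) ^ (-a) * G a (Sm P (n / r)) =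
        ∑ s ∈ Sm P (n / r), if s ∈ B (n / r) then ((s * r : ℕ) : ℝ) ^ (-a) else 0 := by
      rw [← hB3, ← Finset.sum_filter, Finset.filter_mem_eq_inter, Finset.inter_eq_right.2 (hB1 _)]
      unfold S
      rw [Finset.mul_sum]
      apply Finset.sum_congr rfl
      intro s _
      exact (cast_mul_rpow a s r).symm
    rw [e3]
    apply Finset.sum_le_sum
    intro s hs
    have hS := mem_Sm.1 hs
    have hR := mem_Ro.1 hr
    have hpos : (0 : ℝ) ≤ ((s * r : ℕ) : ℝ) ^ (-a) := by positivity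
    by_cases hsB : s ∈ B (n / r)
    · rw [if_pos hsB]
      by_cases hc : s * r * P ≤ n
      · rw [if_pos hc]
        split_ifs <;> linarith
      · have : s * r ∈ A := by
          rw [hA, mem_filter, mem_Icc]
          refine ⟨⟨Nat.mul_pos hS.1.1 hR.1.1, (Nat.le_div_iff_mul_le hR.1.1).1 hS.1.2⟩, r, hr, s,
            hsB, rfl, by omega⟩
        rw [if_pos this]
        split_ifs
        linarith
    · rw [if_neg hsB]
      split_ifs <;> positivity
  linarith

end Pool.Agent.X184.PW
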