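import Pool.Agent.X184.PW.B

set_option autoImplicit false

namespace Pool.Agent.X184.PW

open Finset Filter Topology Nat

/-- the density of the integers coprime to `P!` -/
noncomputable def c (P : ℕ) : ℝ := ((P !).totient : ℝ) / (P ! : ℕ)

lemma fact_pos' (P : ℕ) : (0 : ℝ) < ((P ! : ℕ) : ℝ) := by exact_mod_cast Nat.factorial_pos P

lemma c_nonneg (P : ℕ) : 0 ≤ c P := by unfold c; positivity

lemma c_le_one (P : ℕ) : c P ≤ 1 := by
  unfold c
  rw [div_le_one (fact_pos' P)]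
  exact_mod_cast Nat.totient_le _

lemma c_mul (P : ℕ) : c P * (P ! : ℕ) = ((P !).totient : ℝ) := by
  unfold c
  exact div_mul_cancel₀ _ (fact_pos' P).ne'

lemma Ro_card_add (P x : ℕ) : (#(Ro P (x + P !)) : ℕ) = #(Ro P x) + (P !).totient := by
  classical
  have h := Nat.filter_coprime_Ico_eq_totient (P !) (x + 1)
  rw [← h]
  have e : Ro P (x + P !) = Ro P x ∪ (Ico (x + 1) (x + 1 + P !)).filter fun r => (P !).Coprime r := by
    ext m
    simp only [mem_union, mem_Ro, mem_filter, mem_Ico, Nat.coprime_comm (n := P !)]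
    constructor
    · rintro ⟨⟨h1, h2⟩, h3⟩
      by_cases hm : m ≤ x
      · exact Or.inl ⟨⟨h1, hm⟩, h3⟩
      · exact Or.inr ⟨⟨by omega, by omega⟩, h3⟩
    · rintro (⟨⟨h1, h2⟩, h3⟩ | ⟨⟨h1, h2⟩, h3⟩)
      · exact ⟨⟨h1, by omega⟩, h3⟩
      · exact ⟨⟨by omega, by omega⟩, h3⟩
  rw [e, card_union_of_disjoint]
  rw [disjoint_left]
  intro m h1 h2
  rw [mem_Ro] at h1
  rw [mem_filter, mem_Ico] at h2
  omega

/-- the number of rough numbers, with a bounded error -/
lemma Ro_card (P : ℕ) : ∀ x : ℕ, |(#(Ro P x) : ℝ) - c P * x| ≤ (P ! : ℕ) := by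
  intro x
  induction x using Nat.strong_induction_on with
  | _ x ih =>
    rcases lt_or_ge x (P !) with h | h
    · have h1 : #(Ro P x) ≤ x := by
        have := card_le_card (filter_subset _ _ : Ro P x ⊆ Icc 1 x)
        rwa [Nat.card_Icc, Nat.add_sub_cancel] at this
      have h2 : (#(Ro P x) : ℝ) ≤ x := by exact_mod_cast h1
      have h3 : (x : ℝ) ≤ (P ! : ℕ) := by exact_mod_cast h.le
      have h4 : c P * x ≤ x := mul_le_of_le_one_left (Nat.cast_nonneg _) (c_le_one P)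
      have h5 : 0 ≤ c P * x := mul_nonneg (c_nonneg P) (Nat.cast_nonneg _)
      have h6 : (0 : ℝ) ≤ #(Ro P x) := Nat.cast_nonneg _
      rw [abs_le]
      constructor <;> linarith
    · obtain ⟨y, rfl⟩ : ∃ y, x = y + P ! := ⟨x - P !, by omega⟩
      have h1 := ih y (by have := Nat.factorial_pos P; omega)
      rw [Ro_card_add]
      push_cast
      rw [mul_add, c_mul]
      have e : (#(Ro P y) : ℝ) + ((P !).totient : ℝ) - (c P * y + ((P !).totient : ℝ)) =
        #(Ro P y) - c P * y := by ring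
      rw [e]
      exact h1

lemma Ro_succ (a : ℝ) (P x : ℕ) : S a (Ro P (x + 1)) = S a (Ro P x) +
    ((#(Ro P (x + 1)) : ℝ) - #(Ro P x)) * ((x + 1 : ℕ) : ℝ) ^ (-a) := by
  classical
  by_cases h : (x + 1).Coprime (P !)
  · have e : Ro P (x + 1) = insert (x + 1) (Ro P x) := by
      ext m
      simp only [mem_insert, mem_Ro]
      constructor
      · rintro ⟨⟨h1, h2⟩, h3⟩
        by_cases hm : m = x + 1
        · exact Or.inl hm
        · exact Or.inr ⟨⟨h1, by omega⟩, h3⟩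
      · rintro (rfl | ⟨⟨h1, h2⟩, h3⟩)
        · exact ⟨⟨by omega, le_rfl⟩, h⟩
        · exact ⟨⟨h1, by omega⟩, h3⟩
    have hn : x + 1 ∉ Ro P x := by rw [mem_Ro]; omega
    rw [e, card_insert_of_notMem hn]
    unfold S
    rw [sum_insert hn]
    push_cast
    ring
  · have e : Ro P (x + 1) = Ro P x := by
      ext m
      simp only [mem_Ro]
      constructor
      · rintro ⟨⟨h1, h2⟩, h3⟩
        by_cases hm : m = x + 1
        · subst hm; exact absurd h3 h
        · exact ⟨⟨h1, by omega⟩, h3⟩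
      · rintro ⟨⟨h1, h2⟩, h3⟩
        exact ⟨⟨h1, by omega⟩, h3⟩
    rw [e]
    ring

/-- the weight of the rough numbers -/
lemma R_sub {a : ℝ} (ha : 0 ≤ a) (P : ℕ) (x : ℕ) :
    |S a (Ro P x) - c P * T a x| ≤ 2 * (P ! : ℕ) := by
  have hM := fact_pos' P
  rcases Nat.eq_zero_or_pos x with h0 | h0
  · subst h0
    have : Ro P 0 = ∅ := by
      ext m; simp only [mem_Ro, notMem_empty, iff_false]; omega
    rw [this, T_zero]
    simp only [S, sum_empty, mul_zero, sub_zero, abs_zero]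
    positivity
  have key : ∀ x : ℕ, 1 ≤ x → |S a (Ro P x) - c P * T a x -
      ((#(Ro P x) : ℝ) - c P * x) * (x : ℝ) ^ (-a)| ≤ (P ! : ℕ) * (1 - (x : ℝ) ^ (-a)) := by
    intro x hx
    induction x, hx using Nat.le_induction with
    | base =>
      have e1 : Ro P 1 = {1} := by
        ext m
        simp only [mem_Ro, mem_singleton]
        constructor
        · rintro ⟨⟨h1, h2⟩, -⟩; omega
        · rintro rfl; exact ⟨⟨le_rfl, le_rfl⟩, by simp⟩
      rw [e1]
      simp [S, T]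
    | succ x hx ih =>
      have hE := Ro_card P x
      rw [Ro_succ, T_succ]
      have hx0 : (0 : ℝ) < x := by exact_mod_cast hx
      have hmono : ((x + 1 : ℕ) : ℝ) ^ (-a) ≤ (x : ℝ) ^ (-a) :=
        Real.rpow_le_rpow_of_nonpos hx0 (by push_cast; linarith) (by linarith)
      have e : S a (Ro P x) + ((#(Ro P (x + 1)) : ℝ) - #(Ro P x)) * ((x + 1 : ℕ) : ℝ) ^ (-a) -
          c P * (T a x + ((x + 1 : ℕ) : ℝ) ^ (-a)) -
          ((#(Ro P (x + 1)) : ℝ) - c P * ((x + 1 : ℕ) : ℝ)) * ((x + 1 : ℕ) : ℝ) ^ (-a) =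
          (S a (Ro P x) - c P * T a x - ((#(Ro P x) : ℝ) - c P * x) * (x : ℝ) ^ (-a)) +
          ((#(Ro P x) : ℝ) - c P * x) * ((x : ℝ) ^ (-a) - ((x + 1 : ℕ) : ℝ) ^ (-a)) := by
        push_cast
        ring
      rw [e]
      refine (abs_add_le _ _).trans ?_
      have h2 : |((#(Ro P x) : ℝ) - c P * x) * ((x : ℝ) ^ (-a) - ((x + 1 : ℕ) : ℝ) ^ (-a))| ≤
          (P ! : ℕ) * ((x : ℝ) ^ (-a) - ((x + 1 : ℕ) : ℝ) ^ (-a)) := by
        rw [abs_mul, abs_of_nonneg (sub_nonneg.2 hmono)]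
        exact mul_le_mul_of_nonneg_right hE (sub_nonneg.2 hmono)
      linarith
  have h1 := key x h0
  have h2 := Ro_card P x
  have hx1 : (1 : ℝ) ≤ x := by exact_mod_cast h0
  have h3 : (x : ℝ) ^ (-a) ≤ 1 := Real.rpow_le_one_of_one_le_of_nonpos hx1 (by linarith)
  have h3' : (0 : ℝ) ≤ (x : ℝ) ^ (-a) := by positivity
  have h4 : |((#(Ro P x) : ℝ) - c P * x) * (x : ℝ) ^ (-a)| ≤ (P ! : ℕ) * 1 := by
    rw [abs_mul, abs_of_nonneg h3']
    exact mul_le_mul h2 h3 h3' hM.le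
  have h5 := abs_add_le (S a (Ro P x) - c P * T a x - ((#(Ro P x) : ℝ) - c P * x) * (x : ℝ) ^ (-a))
    (((#(Ro P x) : ℝ) - c P * x) * (x : ℝ) ^ (-a))
  rw [sub_add_cancel] at h5
  nlinarith

lemma tendsto_T {a : ℝ} (ha : 0 ≤ a) (ha1 : a < 1) :
    Tendsto (fun n : ℕ => T a n / (n : ℝ) ^ (1 - a)) atTop (𝓝 (1 / (1 - a))) := by
  have hκ : 0 < 1 - a := by linarith
  have h1 : Tendsto (fun n : ℕ => (1 - 1 / (n : ℝ) ^ (1 - a)) / (1 - a)) atTop (𝓝 ((1 - 0) / (1 - a))) := by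
    refine Tendsto.div_const ?_ _
    refine tendsto_const_nhds.sub ?_
    have : Tendsto (fun n : ℕ => (n : ℝ) ^ (1 - a)) atTop atTop :=
      (tendsto_rpow_atTop hκ).comp tendsto_natCast_atTop_atTop
    simp only [one_div]
    exact this.inv_tendsto_atTop
  rw [sub_zero] at h1
  refine tendsto_of_tendsto_of_tendsto_of_le_of_le' h1 tendsto_const_nhds ?_ ?_
  · filter_upwards [eventually_ge_atTop 1] with n hn
    have hn0 : (0 : ℝ) < n := by exact_mod_cast hn
    have hp : (0 : ℝ) < (n : ℝ) ^ (1 - a) := by positivity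
    have h2 := le_T ha ha1 n
    have h3 : (n : ℝ) ^ (1 - a) ≤ ((n + 1 : ℕ) : ℝ) ^ (1 - a) :=
      Real.rpow_le_rpow hn0.le (by push_cast; linarith) hκ.le
    rw [div_le_div_iff₀ hκ hp]
    have h4 : (1 - 1 / (n : ℝ) ^ (1 - a)) * (n : ℝ) ^ (1 - a) = (n : ℝ) ^ (1 - a) - 1 := by
      field_simp
    rw [h4]
    linarith
  · filter_upwards [eventually_ge_atTop 1] with n hn
    have hn0 : (0 : ℝ) < n := by exact_mod_cast hn
    have hp : (0 : ℝ) < (n : ℝ) ^ (1 - a) := by positivity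
    have h2 := T_le ha ha1 n
    rw [div_le_div_iff₀ hp hκ]
    linarith

lemma tendsto_R {a : ℝ} (ha : 0 ≤ a) (ha1 : a < 1) (P : ℕ) :
    Tendsto (fun n : ℕ => S a (Ro P n) / (n : ℝ) ^ (1 - a)) atTop (𝓝 (c P * (1 / (1 - a)))) := by
  have hκ : 0 < 1 - a := by linarith
  have h0 : Tendsto (fun n : ℕ => (n : ℝ) ^ (1 - a)) atTop atTop :=
    (tendsto_rpow_atTop hκ).comp tendsto_natCast_atTop_atTop
  have h1 := (tendsto_T ha ha1).const_mul (c P)
  have h2 : Tendsto (fun n : ℕ => (S a (Ro P n) - c P * T a n) / (n : ℝ) ^ (1 - a)) atTop (𝓝 0) := by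
    refine squeeze_zero_norm (a := fun n : ℕ => 2 * (P ! : ℕ) * ((n : ℝ) ^ (1 - a))⁻¹) ?_ ?_
    · intro n
      rw [Real.norm_eq_abs, abs_div, div_eq_mul_inv, abs_of_nonneg (by positivity : (0 : ℝ) ≤ (n : ℝ) ^ (1 - a))]
      exact mul_le_mul_of_nonneg_right (R_sub ha P n) (by positivity)
    · have := h0.inv_tendsto_atTop.const_mul (2 * ((P ! : ℕ) : ℝ))
      rwa [mul_zero] at this
  have h3 := h1.add h2
  rw [add_zero] at h3
  refine h3.congr fun n => ?_
  ring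

lemma tendsto_div_nat (k : ℕ) (hk : 1 ≤ k) :
    Tendsto (fun n : ℕ => ((n / k : ℕ) : ℝ) / n) atTop (𝓝 (1 / k)) := by
  have hk0 : (0 : ℝ) < k := by exact_mod_cast hk
  have h1 : Tendsto (fun n : ℕ => (1 : ℝ) / k - 1 / n) atTop (𝓝 (1 / k - 0)) :=
    tendsto_const_nhds.sub tendsto_one_div_atTop_nhds_zero_nat
  rw [sub_zero] at h1
  refine tendsto_of_tendsto_of_tendsto_of_le_of_le' h1 tendsto_const_nhds ?_ ?_
  · filter_upwards [eventually_ge_atTop 1] with n hn
    have hn0 : (0 : ℝ) < n := by exact_mod_cast hn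
    have h2 : n < k * (n / k + 1) := Nat.lt_mul_div_succ n hk
    have h3 : (n : ℝ) < k * (((n / k : ℕ) : ℝ) + 1) := by exact_mod_cast h2
    rw [div_sub_div _ _ hk0.ne' hn0.ne', div_le_div_iff₀ (by positivity) hn0]
    nlinarith
  · filter_upwards [eventually_ge_atTop 1] with n hn
    have hn0 : (0 : ℝ) < n := by exact_mod_cast hn
    have h2 : n / k * k ≤ n := Nat.div_mul_le_self n k
    have h3 : ((n / k : ℕ) : ℝ) * k ≤ n := by exact_mod_cast h2
    rw [div_le_div_iff₀ hn0 hk0]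
    linarith

lemma tendsto_div_atTop (k : ℕ) (hk : 1 ≤ k) : Tendsto (fun n : ℕ => n / k) atTop atTop :=
  Nat.tendsto_div_const_atTop (by omega)

/-- the rough numbers up to `n / k` -/
lemma tendsto_R_div {a : ℝ} (ha : 0 ≤ a) (ha1 : a < 1) (P k : ℕ) (hk : 1 ≤ k) :
    Tendsto (fun n : ℕ => S a (Ro P (n / k)) / (n : ℝ) ^ (1 - a)) atTop
      (𝓝 (c P * (1 / (1 - a)) * (1 / (k : ℝ)) ^ (1 - a))) := by
  have hκ : 0 < 1 - a := by linarith
  have h1 := (tendsto_R ha ha1 P).comp (tendsto_div_atTop k hk)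
  have h2 := (tendsto_div_nat k hk).rpow_const (p := 1 - a) (Or.inr hκ.le)
  refine (h1.mul h2).congr' ?_
  filter_upwards [eventually_ge_atTop k] with n hn
  have hn0 : (0 : ℝ) < n := by exact_mod_cast (by omega : 0 < n)
  have hq : 0 < n / k := Nat.div_pos hn hk
  have hq0 : (0 : ℝ) < ((n / k : ℕ) : ℝ) := by exact_mod_cast hq
  simp only [Function.comp]
  rw [Real.div_rpow hq0.le hn0.le]
  field_simp

end Pool.Agent.X184.PW
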