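import Pool.Agent.X184.PW.C

set_option autoImplicit false

namespace Pool.Agent.X184.PW

open Finset Filter Topology Nat

/-- the multiplicative function `x ↦ x ^ (-a)` -/
noncomputable def fm (a : ℝ) (ha : 0 < a) : ℕ →* ℝ where
  toFun n := (n : ℝ) ^ (-a)
  map_one' := by simp
  map_mul' m n := by
    push_cast
    exact Real.mul_rpow (by positivity) (by positivity)

lemma exists_bound {a : ℝ} (ha : 0 < a) (P : ℕ) : ∃ Z : ℝ, ∀ y : ℕ, S a (Sm P y) ≤ Z := by
  have h := (EulerProduct.summable_and_hasSum_smoothNumbers_prod_primesBelow_geometric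
    (f := fm a ha) (fun {p} hp => by
      have hp1 : (1 : ℝ) < p := by exact_mod_cast hp.one_lt
      have h1 : (p : ℝ) ^ (-a) < 1 := Real.rpow_lt_one_of_one_lt_of_neg hp1 (by linarith)
      have h0 : (0 : ℝ) ≤ (p : ℝ) ^ (-a) := by positivity
      show ‖(p : ℝ) ^ (-a)‖ < 1
      rwa [Real.norm_eq_abs, abs_of_nonneg h0]) (P + 1)).1
  have h2 : Summable ((P + 1).smoothNumbers.indicator fun m : ℕ => ‖fm a ha m‖) :=
    (summable_subtype_iff_indicator (f := fun m : ℕ => ‖fm a ha m‖)).1 h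
  refine ⟨∑' m, (P + 1).smoothNumbers.indicator (fun m : ℕ => ‖fm a ha m‖) m, fun y => ?_⟩
  have h3 := h2.sum_le_tsum (Sm P y) (fun i _ => Set.indicator_nonneg (fun _ _ => norm_nonneg _) _)
  refine le_trans ?_ h3
  unfold S
  apply Finset.sum_le_sum
  intro s hs
  rw [mem_Sm] at hs
  have hmem : s ∈ (P + 1).smoothNumbers := by
    rw [Nat.mem_smoothNumbers']
    intro p hp hps
    exact Nat.lt_succ_of_le (hs.2 p hp hps)
  rw [Set.indicator_of_mem hmem]
  exact le_abs_self _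

/-- the increments of the maximal weight -/
noncomputable def inc (a : ℝ) (P v : ℕ) : ℝ := G a (Sm P (v + 1)) - G a (Sm P v)

lemma Sm_mono (P : ℕ) {x y : ℕ} (h : x ≤ y) : Sm P x ⊆ Sm P y := by
  intro m
  rw [mem_Sm, mem_Sm]
  rintro ⟨⟨h1, h2⟩, h3⟩
  exact ⟨⟨h1, h2.trans h⟩, h3⟩

lemma inc_nonneg (a : ℝ) (P v : ℕ) : 0 ≤ inc a P v :=
  sub_nonneg.2 (G_mono a (Sm_mono P (by omega)))

lemma sum_inc (a : ℝ) (P n : ℕ) : ∑ v ∈ range n, inc a P v = G a (Sm P n) := by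
  unfold inc
  rw [Finset.sum_range_sub (fun v => G a (Sm P v))]
  have h : Sm P 0 = ∅ := by
    ext m; simp only [mem_Sm, notMem_empty, iff_false]; omega
  have h0 : G a (Sm P 0) = 0 := by
    apply le_antisymm _ (G_nonneg _ _)
    refine (G_le_S a _).trans ?_
    rw [h]; simp [S]
  rw [h0, sub_zero]

lemma summable_inc {a : ℝ} (ha : 0 < a) (P : ℕ) : Summable (inc a P) := by
  obtain ⟨Z, hZ⟩ := exists_bound ha P
  refine summable_of_sum_range_le (c := Z) (inc_nonneg a P) fun n => ?_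
  rw [sum_inc]
  exact (G_le_S a _).trans (hZ n)

lemma Ro_zero (P : ℕ) : Ro P 0 = ∅ := by
  ext m; simp only [mem_Ro, notMem_empty, iff_false]; omega

lemma U_eq (a : ℝ) (P n : ℕ) : U a P n = ∑' v : ℕ, inc a P v * S a (Ro P (n / (v + 1))) := by
  rw [tsum_eq_sum (s := range n) (fun v hv => by
    rw [mem_range, not_lt] at hv
    rw [Nat.div_eq_of_lt (by omega), Ro_zero]
    simp [S])]
  unfold U
  simp_rw [← sum_inc, Finset.mul_sum, S, Finset.mul_sum]
  rw [Finset.sum_comm' (t' := range n) (s' := fun v => Ro P (n / (v + 1)))]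
  · apply Finset.sum_congr rfl
    intro v _
    apply Finset.sum_congr rfl
    intro r _
    ring
  · intro r v
    simp only [mem_Ro, mem_range]
    constructor
    · rintro ⟨⟨⟨h1, h2⟩, h3⟩, h4⟩
      have h5 : (v + 1) * r ≤ n := (Nat.le_div_iff_mul_le h1).1 h4
      have h6 : r ≤ n / (v + 1) := by
        rw [Nat.le_div_iff_mul_le (by omega)]
        linarith [mul_comm r (v + 1)]
      refine ⟨⟨⟨h1, h6⟩, h3⟩, ?_⟩
      calc v < v + 1 := by omega
        _ ≤ (v + 1) * r := Nat.le_mul_of_pos_right _ h1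
        _ ≤ n := h5
    · rintro ⟨⟨⟨h1, h2⟩, h3⟩, h4⟩
      have h5 : r * (v + 1) ≤ n := (Nat.le_div_iff_mul_le (by omega)).1 h2
      have h6 : v + 1 ≤ n / r := by
        rw [Nat.le_div_iff_mul_le h1]
        linarith [mul_comm r (v + 1)]
      refine ⟨⟨⟨h1, ?_⟩, h3⟩, by omega⟩
      calc r ≤ r * (v + 1) := Nat.le_mul_of_pos_right _ (by omega)
        _ ≤ n := h5

lemma exists_limit_U {a : ℝ} (ha : 0 < a) (ha1 : a < 1) (P : ℕ) :
    ∃ L : ℝ, Tendsto (fun n : ℕ => U a P n / (n : ℝ) ^ (1 - a)) atTop (𝓝 L) := by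
  have hκ : 0 < 1 - a := by linarith
  refine ⟨∑' v : ℕ, inc a P v * (c P * (1 / (1 - a)) * (1 / ((v + 1 : ℕ) : ℝ)) ^ (1 - a)), ?_⟩
  have h := tendsto_tsum_of_dominated_convergence (𝓕 := atTop)
    (f := fun (n : ℕ) (v : ℕ) => inc a P v * (S a (Ro P (n / (v + 1))) / (n : ℝ) ^ (1 - a)))
    (g := fun v : ℕ => inc a P v * (c P * (1 / (1 - a)) * (1 / ((v + 1 : ℕ) : ℝ)) ^ (1 - a)))
    (bound := fun v => inc a P v * (1 / (1 - a)))
    ((summable_inc ha P).mul_right _) (fun v =>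
      (tendsto_R_div ha.le ha1 P (v + 1) (by omega)).const_mul _) ?_
  · refine h.congr fun n => ?_
    rw [U_eq, div_eq_mul_inv, ← tsum_mul_right]
    apply tsum_congr
    intro v
    ring
  · filter_upwards [eventually_ge_atTop 1] with n hn v
    have hn0 : (0 : ℝ) < n := by exact_mod_cast hn
    have hp : (0 : ℝ) < (n : ℝ) ^ (1 - a) := by positivity
    rw [Real.norm_eq_abs, abs_of_nonneg (mul_nonneg (inc_nonneg a P v)
      (div_nonneg (S_nonneg _ _) hp.le))]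
    apply mul_le_mul_of_nonneg_left _ (inc_nonneg a P v)
    rw [div_le_div_iff₀ hp hκ]
    have h1 : S a (Ro P (n / (v + 1))) ≤ T a n := by
      apply S_mono
      intro m hm
      rw [mem_Ro] at hm
      rw [mem_Icc]
      exact ⟨hm.1.1, hm.1.2.trans (Nat.div_le_self _ _)⟩
    have h2 := T_le ha.le ha1 n
    nlinarith

/-- the ratio `F(f_a, n)` -/
noncomputable def F (a : ℝ) (n : ℕ) : ℝ := G a (Icc 1 n) / T a n

lemma F_nonneg (a : ℝ) (n : ℕ) : 0 ≤ F a n := div_nonneg (G_nonneg _ _) (T_nonneg _ _)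

lemma F_le_one (a : ℝ) (n : ℕ) : F a n ≤ 1 := div_le_one_of_le₀ (G_le_S _ _) (T_nonneg _ _)

lemma F_mul (a : ℝ) {n : ℕ} (hn : 1 ≤ n) : F a n * T a n = G a (Icc 1 n) :=
  div_mul_cancel₀ _ (T_pos a hn).ne'

/-- the limit exists for `0 < a < 1` -/
theorem exists_limit_F {a : ℝ} (ha : 0 < a) (ha1 : a < 1) :
    ∃ L : ℝ, Tendsto (F a) atTop (𝓝 L) := by
  have hκ : 0 < 1 - a := by linarith
  apply cauchySeq_tendsto_of_complete
  rw [Metric.cauchySeq_iff']
  intro ε hε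
  -- choose P
  obtain ⟨P, hP1, hP⟩ : ∃ P : ℕ, 1 ≤ P ∧ 2 * ((P : ℝ) ^ (1 - a))⁻¹ < ε / 6 := by
    have h0 : Tendsto (fun n : ℕ => (n : ℝ) ^ (1 - a)) atTop atTop :=
      (tendsto_rpow_atTop hκ).comp tendsto_natCast_atTop_atTop
    have h1 := h0.inv_tendsto_atTop.const_mul (2 : ℝ)
    rw [mul_zero] at h1
    have h2 := (h1.eventually (gt_mem_nhds (show (0 : ℝ) < ε / 6 by positivity))).and
      (eventually_ge_atTop 1)
    obtain ⟨P, h3, h4⟩ := h2.exists
    exact ⟨P, h4, h3⟩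
  have hP0 : (0 : ℝ) < P := by exact_mod_cast hP1
  obtain ⟨L, hL⟩ := exists_limit_U ha ha1 P
  have hT := tendsto_T ha.le ha1
  have hUT : Tendsto (fun n : ℕ => U a P n / T a n) atTop (𝓝 (L / (1 / (1 - a)))) := by
    refine (hL.div hT (by positivity)).congr' ?_
    filter_upwards [eventually_ge_atTop 1] with n hn
    have hn0 : (0 : ℝ) < n := by exact_mod_cast hn
    have hp : (0 : ℝ) < (n : ℝ) ^ (1 - a) := by positivity
    simp only [Pi.div_apply]
    exact div_div_div_cancel_right₀ hp.ne' _ _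
  -- the ratio T(n/P)/T(n)
  have hR : Tendsto (fun n : ℕ => (1 / (1 - a)) * ((P : ℝ) ^ (1 - a))⁻¹ / (T a n / (n : ℝ) ^ (1 - a)))
      atTop (𝓝 ((1 / (1 - a)) * ((P : ℝ) ^ (1 - a))⁻¹ / (1 / (1 - a)))) :=
    tendsto_const_nhds.div hT (by positivity)
  have e1 : (1 / (1 - a)) * ((P : ℝ) ^ (1 - a))⁻¹ / (1 / (1 - a)) = ((P : ℝ) ^ (1 - a))⁻¹ := by
    field_simp
  rw [e1] at hR
  have hPi : (0 : ℝ) < ((P : ℝ) ^ (1 - a))⁻¹ := by positivity
  have h3 := hR.eventually (gt_mem_nhds (show ((P : ℝ) ^ (1 - a))⁻¹ < 2 * ((P : ℝ) ^ (1 - a))⁻¹ by linarith))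
  have h4 := (Metric.tendsto_atTop.1 hUT) (ε / 6) (by positivity)
  obtain ⟨N1, hN1⟩ := h4
  obtain ⟨N2, hN2⟩ := eventually_atTop.1 h3
  have key : ∀ n : ℕ, N1 ≤ n → N2 ≤ n → 1 ≤ n → |F a n - L / (1 / (1 - a))| < ε / 3 := by
    intro n h1 h2 hn
    have hn0 : (0 : ℝ) < n := by exact_mod_cast hn
    have hp : (0 : ℝ) < (n : ℝ) ^ (1 - a) := by positivity
    have hTn := T_pos a hn
    have h5 := hN1 n h1
    have h6 := hN2 n h2
    rw [Real.dist_eq] at h5
    have h7 : T a (n / P) / T a n ≤ (1 / (1 - a)) * ((P : ℝ) ^ (1 - a))⁻¹ / (T a n / (n : ℝ) ^ (1 - a)) := by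
      rw [div_div_eq_mul_div, div_le_div_iff_of_pos_right hTn]
      have h8 := T_le ha.le ha1 (n / P)
      have h9 : ((n / P : ℕ) : ℝ) ^ (1 - a) ≤ ((n : ℝ) / P) ^ (1 - a) :=
        Real.rpow_le_rpow (Nat.cast_nonneg _) Nat.cast_div_le hκ.le
      rw [Real.div_rpow hn0.le hP0.le] at h9
      have h10 : T a (n / P) ≤ (1 / (1 - a)) * ((n : ℝ) ^ (1 - a) / (P : ℝ) ^ (1 - a)) := by
        rw [one_div, ← div_eq_inv_mul, le_div_iff₀ hκ]
        linarith
      calc T a (n / P) ≤ (1 / (1 - a)) * ((n : ℝ) ^ (1 - a) / (P : ℝ) ^ (1 - a)) := h10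
        _ = _ := by ring
    have h11 : F a n ≤ U a P n / T a n := by
      unfold F
      exact div_le_div_of_nonneg_right (G_le_U a P n) hTn.le
    have h12 : U a P n / T a n ≤ F a n + T a (n / P) / T a n := by
      unfold F
      rw [← add_div]
      exact div_le_div_of_nonneg_right (U_le_G a hP1 n) hTn.le
    rw [abs_lt] at h5 ⊢
    constructor <;> linarith
  refine ⟨max (max N1 N2) 1, fun n hn => ?_⟩
  have h5 := key n (le_trans (le_trans (le_max_left _ _) (le_max_left _ _)) hn)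
    (le_trans (le_trans (le_max_right _ _) (le_max_left _ _)) hn) (le_trans (le_max_right _ _) hn)
  have h6 := key (max (max N1 N2) 1) (le_trans (le_max_left _ _) (le_max_left _ _))
    (le_trans (le_max_right _ _) (le_max_left _ _)) (le_max_right _ _)
  rw [Real.dist_eq]
  rw [abs_lt] at h5 h6 ⊢
  constructor <;> linarith

end Pool.Agent.X184.PW
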