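import Pool.Agent.X184.PW.D

set_option autoImplicit false

namespace Pool.Agent.X184.PW

open Finset Filter Topology Nat

lemma S_zero (A : Finset ℕ) : S 0 A = #A := by
  unfold S
  simp

lemma T_zero' (n : ℕ) : T 0 n = n := by
  unfold T
  rw [S_zero]
  simp

lemma upper_half_prim (t : ℕ) : Prim (Ioc (t / 2) t) := by
  intro x hx y hy hxy
  rw [mem_Ioc] at hx hy
  obtain ⟨k, rfl⟩ := hxy
  have hk : k < 2 := by
    by_contra h
    push Not at h
    have : x * 2 ≤ x * k := Nat.mul_le_mul_left x h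
    omega
  interval_cases k
  · omega
  · simp

lemma card_prim_le {A : Finset ℕ} {n : ℕ} (hA : A ⊆ Icc 1 n) (hP : Prim A) : #A ≤ (n + 1) / 2 := by
  have h : #A ≤ #(range ((n + 1) / 2)) := by
    apply card_le_card_of_injOn (fun x => (x / 2 ^ x.factorization 2) / 2)
    · intro x hx
      have hx' := hA hx
      rw [mem_Icc] at hx'
      have h1 : x / 2 ^ x.factorization 2 ≤ x := Nat.div_le_self _ _
      have h2 : ¬ 2 ∣ x / 2 ^ x.factorization 2 := Nat.not_dvd_ordCompl Nat.prime_two (by omega)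
      rw [mem_coe, mem_range]
      show x / 2 ^ x.factorization 2 / 2 < (n + 1) / 2
      omega
    · intro x hx y hy he
      have hx' := hA hx
      have hy' := hA hy
      rw [mem_Icc] at hx' hy'
      have h2 : ¬ 2 ∣ x / 2 ^ x.factorization 2 := Nat.not_dvd_ordCompl Nat.prime_two (by omega)
      have h3 : ¬ 2 ∣ y / 2 ^ y.factorization 2 := Nat.not_dvd_ordCompl Nat.prime_two (by omega)
      have he' : x / 2 ^ x.factorization 2 = y / 2 ^ y.factorization 2 := by
        have he2 : x / 2 ^ x.factorization 2 / 2 = y / 2 ^ y.factorization 2 / 2 := he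
        omega
      have h4 := Nat.ordProj_mul_ordCompl_eq_self x 2
      have h5 := Nat.ordProj_mul_ordCompl_eq_self y 2
      rcases le_total (x.factorization 2) (y.factorization 2) with h | h
      · apply hP x hx y hy
        rw [← h4, ← h5, he']
        exact Nat.mul_dvd_mul_right (pow_dvd_pow 2 h) _
      · symm
        apply hP y hy x hx
        rw [← h4, ← h5, he']
        exact Nat.mul_dvd_mul_right (pow_dvd_pow 2 h) _
  rwa [card_range] at h

theorem tendsto_F_zero : Tendsto (F 0) atTop (𝓝 (1 / 2)) := by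
  have h1 : Tendsto (fun n : ℕ => (1 : ℝ) / 2 + 1 / n) atTop (𝓝 (1 / 2 + 0)) :=
    tendsto_const_nhds.add tendsto_one_div_atTop_nhds_zero_nat
  rw [add_zero] at h1
  refine tendsto_of_tendsto_of_tendsto_of_le_of_le' tendsto_const_nhds h1 ?_ ?_
  · filter_upwards [eventually_ge_atTop 1] with n hn
    have hn0 : (0 : ℝ) < n := by exact_mod_cast hn
    have h2 := le_G (a := 0) (A := Ioc (n / 2) n) (Y := Icc 1 n)
      (by intro x hx; rw [mem_Ioc] at hx; rw [mem_Icc]; omega) (upper_half_prim n)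
    rw [S_zero, Nat.card_Ioc] at h2
    unfold F
    rw [T_zero', div_le_div_iff₀ (by norm_num) hn0]
    have h3 : n ≤ 2 * (n - n / 2) := by omega
    have h4 : (n : ℝ) ≤ 2 * ((n - n / 2 : ℕ) : ℝ) := by exact_mod_cast h3
    linarith
  · filter_upwards [eventually_ge_atTop 1] with n hn
    have hn0 : (0 : ℝ) < n := by exact_mod_cast hn
    obtain ⟨A, hA1, hA2, hA3⟩ := exists_opt 0 (Icc 1 n)
    unfold F
    rw [T_zero', ← hA3, S_zero, div_le_iff₀ hn0]
    have h2 := card_prim_le hA1 hA2
    have h3 : 2 * #A ≤ n + 1 := by omega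
    have h4 : 2 * (#A : ℝ) ≤ n + 1 := by exact_mod_cast h3
    have h5 : ((1 : ℝ) / 2 + 1 / n) * n = n / 2 + 1 := by field_simp
    rw [h5]
    linarith

theorem exists_limit {a : ℝ} (ha : 0 ≤ a) (ha1 : a < 1) : ∃ L : ℝ, Tendsto (F a) atTop (𝓝 L) := by
  rcases ha.eq_or_lt with h | h
  · subst h
    exact ⟨_, tendsto_F_zero⟩
  · exact exists_limit_F h ha1

end Pool.Agent.X184.PW
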