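import Pool.Agent.X184.PW.C
import Pool.Agent.Erdos456.Mertens

set_option autoImplicit false

namespace Pool.Agent.X184.PW

open Finset Filter Topology Nat

open Pool.Agent.Erdos456.Mert (PP mertens_inv)

/-- the density as a product -/
lemma c_eq_prod (P : ℕ) : c P = ∏ p ∈ PP P, (1 - 1 / (p : ℝ)) := by
  have h := Nat.totient_eq_mul_prod_factors (P !)
  have h1 : (P !).primeFactors = PP P := by
    ext p
    simp only [Nat.mem_primeFactors, PP, mem_filter, mem_Icc]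
    constructor
    · rintro ⟨hp, hd, -⟩
      exact ⟨⟨hp.one_le, (hp.dvd_factorial).1 hd⟩, hp⟩
    · rintro ⟨⟨-, h2⟩, hp⟩
      exact ⟨hp, (hp.dvd_factorial).2 h2, (Nat.factorial_pos P).ne'⟩
  rw [h1] at h
  have h2 : ((P !).totient : ℝ) = (P ! : ℕ) * ∏ p ∈ PP P, (1 - 1 / (p : ℝ)) := by
    have h3 := congrArg (fun q : ℚ => (q : ℝ)) h
    push_cast at h3
    simpa [one_div] using h3
  unfold c
  rw [h2, mul_div_cancel_left₀ _ (fact_pos' P).ne']

lemma factor_pos {p : ℕ} (hp : p.Prime) : (1 : ℝ) / 2 ≤ 1 - 1 / (p : ℝ) := by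
  have h : (2 : ℝ) ≤ p := by exact_mod_cast hp.two_le
  have : 1 / (p : ℝ) ≤ 1 / 2 := one_div_le_one_div_of_le (by norm_num) h
  linarith

lemma c_pos (P : ℕ) : 0 < c P := by
  rw [c_eq_prod]
  apply Finset.prod_pos
  intro p hp
  have := factor_pos (mem_filter.1 hp).2
  linarith

lemma c_split {P Q : ℕ} (h : P ≤ Q) :
    c Q = c P * ∏ p ∈ (Ioc P Q).filter Nat.Prime, (1 - 1 / (p : ℝ)) := by
  rw [c_eq_prod, c_eq_prod, ← Finset.prod_union]
  · apply Finset.prod_congr _ fun _ _ => rfl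
    ext p
    simp only [PP, mem_filter, mem_Icc, mem_union, mem_Ioc]
    constructor
    · rintro ⟨⟨h1, h2⟩, h3⟩
      by_cases hp : p ≤ P
      · exact Or.inl ⟨⟨h1, hp⟩, h3⟩
      · exact Or.inr ⟨⟨by omega, h2⟩, h3⟩
    · rintro (⟨⟨h1, h2⟩, h3⟩ | ⟨⟨h1, h2⟩, h3⟩)
      · exact ⟨⟨h1, by omega⟩, h3⟩
      · exact ⟨⟨by omega, h2⟩, h3⟩
  · rw [disjoint_left]
    intro p h1 h2
    simp only [PP, mem_filter, mem_Icc, mem_Ioc] at h1 h2
    omega

/-- `∑ 1 / q ≤ log (c P / c Q)` -/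
lemma sum_le_log {P Q : ℕ} (h : P ≤ Q) :
    ∑ q ∈ (Ioc P Q).filter Nat.Prime, (1 : ℝ) / q ≤ Real.log (c P / c Q) := by
  have h1 : ∏ p ∈ (Ioc P Q).filter Nat.Prime, (1 - 1 / (p : ℝ)) ≤
      Real.exp (-∑ q ∈ (Ioc P Q).filter Nat.Prime, (1 : ℝ) / q) := by
    rw [← Finset.sum_neg_distrib, Real.exp_sum]
    apply Finset.prod_le_prod
    · intro p hp
      have := factor_pos (mem_filter.1 hp).2
      linarith
    · intro p _
      have := Real.add_one_le_exp (-(1 / (p : ℝ)))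
      linarith
  have hP := c_pos P
  have hQ := c_pos Q
  rw [Real.le_log_iff_exp_le (by positivity), le_div_iff₀ hQ, c_split h]
  calc Real.exp (∑ q ∈ (Ioc P Q).filter Nat.Prime, (1 : ℝ) / q) *
        (c P * ∏ p ∈ (Ioc P Q).filter Nat.Prime, (1 - 1 / (p : ℝ)))
      ≤ Real.exp (∑ q ∈ (Ioc P Q).filter Nat.Prime, (1 : ℝ) / q) *
        (c P * Real.exp (-∑ q ∈ (Ioc P Q).filter Nat.Prime, (1 : ℝ) / q)) := by
        apply mul_le_mul_of_nonneg_left _ (Real.exp_pos _).le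
        exact mul_le_mul_of_nonneg_left h1 hP.le
    _ = c P := by
        rw [mul_left_comm, ← Real.exp_add, add_neg_cancel, Real.exp_zero, mul_one]

lemma c_succ_ge (P : ℕ) : c P / 2 ≤ c (P + 1) := by
  rw [c_split (Nat.le_succ P)]
  have h : (1 : ℝ) / 2 ≤ ∏ p ∈ (Ioc P (P + 1)).filter Nat.Prime, (1 - 1 / (p : ℝ)) := by
    have e : Ioc P (P + 1) = {P + 1} := by
      ext m; simp only [mem_Ioc, mem_singleton]; omega
    rw [e, Finset.filter_singleton]
    split_ifs with hp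
    · rw [prod_singleton]
      exact factor_pos hp
    · rw [prod_empty]
      norm_num
  have := mul_le_mul_of_nonneg_left h (c_pos P).le
  linarith

/-- the density tends to zero -/
lemma exists_c_lt (ε : ℝ) (hε : 0 < ε) : ∃ Q : ℕ, c Q < ε := by
  obtain ⟨C, hC⟩ := mertens_inv
  have h1 : Tendsto (fun N : ℕ => Real.exp (C - Real.log (Real.log N))) atTop (𝓝 0) := by
    apply Real.tendsto_exp_atBot.comp
    apply tendsto_atBot_add_const_left
    exact tendsto_neg_atTop_atBot.comp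
      (Real.tendsto_log_atTop.comp (Real.tendsto_log_atTop.comp tendsto_natCast_atTop_atTop))
  obtain ⟨N, h2, h3⟩ := ((h1.eventually (gt_mem_nhds hε)).and (eventually_ge_atTop 3)).exists
  refine ⟨N, lt_of_le_of_lt ?_ h2⟩
  have h4 := sum_le_log (P := 0) (Q := N) (Nat.zero_le _)
  have h5 := hC N h3
  have e : (Ioc 0 N).filter Nat.Prime = PP N := by
    have e' : Ioc 0 N = Icc 1 N := by
      ext p; simp only [mem_Ioc, mem_Icc]; omega
    rw [e']
  rw [e] at h4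
  have h6 : c 0 = 1 := by simp [c]
  rw [h6] at h4
  have hQ := c_pos N
  rw [Real.le_log_iff_exp_le (by positivity), le_div_iff₀ hQ] at h4
  rw [abs_le] at h5
  have h7 : Real.exp (Real.log (Real.log N) - C) * c N ≤ 1 := by
    refine le_trans ?_ h4
    apply mul_le_mul_of_nonneg_right _ hQ.le
    apply Real.exp_le_exp.2
    linarith [h5.1]
  have h8 : c N = Real.exp (C - Real.log (Real.log N)) * (Real.exp (Real.log (Real.log N) - C) * c N) := by
    rw [← mul_assoc, ← Real.exp_add]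
    simp
  rw [h8]
  exact mul_le_of_le_one_right (Real.exp_pos _).le h7

/-- `c P * P ^ κ` is unbounded -/
lemma exists_c_large {κ : ℝ} (hκ : 0 < κ) (K : ℝ) : ∃ P : ℕ, 1 ≤ P ∧ K * ((P : ℝ) ^ κ)⁻¹ < c P := by
  obtain ⟨C, hC⟩ := mertens_inv
  -- c P ≥ exp (-2 ∑ 1/p)
  have hc : ∀ P : ℕ, Real.exp (-(2 * ∑ p ∈ PP P, (1 : ℝ) / p)) ≤ c P := by
    intro P
    rw [c_eq_prod, Finset.mul_sum, ← Finset.sum_neg_distrib, Real.exp_sum]
    apply Finset.prod_le_prod
    · intro p _; exact (Real.exp_pos _).le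
    · intro p hp
      have h2 : (2 : ℝ) ≤ p := by exact_mod_cast (mem_filter.1 hp).2.two_le
      have h3 : 1 / (p : ℝ) ≤ 1 / 2 := one_div_le_one_div_of_le (by norm_num) h2
      have h0 : 0 < 1 / (p : ℝ) := by positivity
      have h4 : 1 + 2 * (1 / (p : ℝ)) ≤ Real.exp (2 * (1 / (p : ℝ))) := by
        have := Real.add_one_le_exp (2 * (1 / (p : ℝ)))
        linarith
      rw [Real.exp_neg, inv_le_comm₀ (Real.exp_pos _) (by linarith)]
      refine le_trans ?_ h4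
      rw [inv_eq_one_div, div_le_iff₀ (by linarith)]
      nlinarith
  have h1 : Tendsto (fun N : ℕ => K * Real.exp (2 * C) * ((Real.log N) ^ (2 : ℝ) / (N : ℝ) ^ κ)) atTop (𝓝 0) := by
    have h2 : Tendsto (fun x : ℝ => (Real.log x) ^ (2 : ℝ) / x ^ κ) atTop (𝓝 0) :=
      (isLittleO_log_rpow_rpow_atTop 2 hκ).tendsto_div_nhds_zero
    have h3 := (h2.comp tendsto_natCast_atTop_atTop).const_mul (K * Real.exp (2 * C))
    rw [mul_zero] at h3
    exact h3
  obtain ⟨N, h2, h3⟩ := ((h1.eventually (gt_mem_nhds (zero_lt_one))).and (eventually_ge_atTop 3)).exists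
  refine ⟨N, by omega, lt_of_lt_of_le ?_ (hc N)⟩
  have h5 := hC N h3
  rw [abs_le] at h5
  have hN : (1 : ℝ) < N := by exact_mod_cast (by omega : 1 < N)
  have hN0 : (0 : ℝ) < N := by linarith
  have hl : 0 < Real.log N := Real.log_pos hN
  have h6 : Real.exp (-(2 * C)) * ((Real.log N) ^ (2 : ℝ))⁻¹ ≤ Real.exp (-(2 * ∑ p ∈ PP N, (1 : ℝ) / p)) := by
    rw [Real.rpow_def_of_pos hl, ← Real.exp_neg, ← Real.exp_add]
    apply Real.exp_le_exp.2
    nlinarith [h5.2]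
  refine lt_of_lt_of_le ?_ h6
  have hp1 : (0 : ℝ) < (N : ℝ) ^ κ := by positivity
  have hp2 : (0 : ℝ) < (Real.log N) ^ (2 : ℝ) := by positivity
  have h7 : K * ((N : ℝ) ^ κ)⁻¹ = (K * Real.exp (2 * C) * ((Real.log N) ^ (2 : ℝ) / (N : ℝ) ^ κ)) *
      (Real.exp (-(2 * C)) * ((Real.log N) ^ (2 : ℝ))⁻¹) := by
    rw [Real.exp_neg]
    field_simp
  rw [h7]
  exact mul_lt_of_lt_one_left (by positivity) h2

end Pool.Agent.X184.PW
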